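import Mathlib
import Pool.Agent.Run7.h446.Smyth.Iface

/-! # Piece CENTER of the Smyth project (MP_ed3ef1_nt, MP_e29efe_nt) -/

open Finset

noncomputable section

namespace Pool.Agent.Run7.h24.SmythCenter

open Pool.Agent.Run7.h446.Smyth

theorem main : St_center := by
  intro ι Λ A V W _ _ _ _ _ _ _ S
  refine ⟨1 + ∑ i, ∑ l, ‖S.g (S.basisL i l : Λ)‖, by positivity, fun i t => ?_⟩
  obtain ⟨x₀, hx₀⟩ := S.surj i t
  obtain ⟨s, hs⟩ := (Submodule.mem_span_range_iff_exists_fun ℝ).1 (S.r_span i x₀)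
  set y : (S.π i).ker := ∑ l, ⌊s l⌋ • S.basisL i l with hy
  have hyk : S.π i (y : Λ) = 0 := (AddMonoidHom.mem_ker).1 y.2
  have hyv : (y : Λ) = ∑ l, ⌊s l⌋ • (S.basisL i l : Λ) := by
    rw [hy]; push_cast; rfl
  refine ⟨x₀ - y, by rw [map_sub, hyk, hx₀, sub_zero], ?_⟩
  have h1 : S.r i (x₀ - y) = ∑ l, Int.fract (s l) • S.g (S.basisL i l : Λ) := by
    rw [map_sub, S.r_ker i _ hyk, ← hs, hyv, map_sum, ← Finset.sum_sub_distrib]
    apply Finset.sum_congr rfl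
    intro l _
    rw [map_zsmul, ← Int.cast_smul_eq_zsmul ℝ, ← sub_smul, Int.self_sub_floor]
  rw [h1]
  have h2 : ‖∑ l, Int.fract (s l) • S.g (S.basisL i l : Λ)‖ ≤ ∑ l, ‖S.g (S.basisL i l : Λ)‖ := by
    refine (norm_sum_le _ _).trans (Finset.sum_le_sum fun l _ => ?_)
    rw [norm_smul, Real.norm_of_nonneg (Int.fract_nonneg _)]
    exact mul_le_of_le_one_left (norm_nonneg _) (Int.fract_lt_one _).le
  have h3 : ∑ l, ‖S.g (S.basisL i l : Λ)‖ ≤ ∑ i, ∑ l, ‖S.g (S.basisL i l : Λ)‖ :=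
    Finset.single_le_sum (f := fun i => ∑ l, ‖S.g (S.basisL i l : Λ)‖)
      (fun i _ => Finset.sum_nonneg fun l _ => norm_nonneg _) (Finset.mem_univ i)
  linarith

end Pool.Agent.Run7.h24.SmythCenter
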