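import Mathlib
import Pool.Agent.Run7.h446.Smyth.Iface

/-! # Piece COUNT of the Smyth project (MP_ed3ef1_nt, MP_e29efe_nt) -/

open Finset

noncomputable section

namespace Pool.Agent.Run7.h24.SmythCount

open Pool.Agent.Run7.h446.Smyth

/-- Gaussian sum over a group with a basis -/
lemma gauss_group (hG : St_gauss) {G V : Type} [AddCommGroup G] [NormedAddCommGroup V]
    [InnerProductSpace ℝ V] (D : ℕ) (b : Module.Basis (Fin D) ℤ G) (F : G →+ V)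
    (hind : LinearIndependent ℝ (fun l => F (b l))) :
    ∃ c > (0 : ℝ), ∃ C > (0 : ℝ), ∀ N : ℕ, 1 ≤ N → ∃ κ : ℝ, 0 ≤ κ ∧ κ ≤ C * (N : ℝ) ^ D ∧
      ∀ s ∈ Submodule.span ℝ (Set.range fun l => F (b l)),
        Summable (fun y : G => Real.exp (-‖s + F y‖ ^ 2 / N)) ∧
        |∑' y : G, Real.exp (-‖s + F y‖ ^ 2 / N) - κ| ≤
          C * (N : ℝ) ^ D * Real.exp (-c * N) := by
  obtain ⟨c, hc, C, hC, h⟩ := hG V D (fun l => F (b l)) hind
  refine ⟨c, hc, C, hC, fun N hN => ?_⟩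
  obtain ⟨κ, h1, h2, h3⟩ := h N hN
  refine ⟨κ, h1, h2, fun s hs => ?_⟩
  obtain ⟨h4, h5⟩ := h3 s hs
  have hfun : (fun y : G => Real.exp (-‖s + F y‖ ^ 2 / N)) =
      (fun y : Fin D → ℤ => Real.exp (-‖s + ∑ l, (y l : ℝ) • F (b l)‖ ^ 2 / N)) ∘
        b.equivFun.toEquiv := by
    ext y
    have : F y = ∑ l, ((b.equivFun y l : ℤ) : ℝ) • F (b l) := by
      conv_lhs => rw [← b.sum_equivFun y, map_sum]
      apply Finset.sum_congr rfl
      intro l _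
      rw [map_zsmul, Int.cast_smul_eq_zsmul ℝ]
    rw [this]
    rfl
  rw [hfun]
  refine ⟨(b.equivFun.toEquiv.summable_iff).2 h4, ?_⟩
  rw [Function.comp_def, b.equivFun.toEquiv.tsum_eq
    (fun y : Fin D → ℤ => Real.exp (-‖s + ∑ l, (y l : ℝ) • F (b l)‖ ^ 2 / N))]
  exact h5

lemma count_group (hG : St_gauss) {G V : Type} [AddCommGroup G] [NormedAddCommGroup V]
    [InnerProductSpace ℝ V] (D : ℕ) (b : Module.Basis (Fin D) ℤ G) (F : G →+ V)
    (hind : LinearIndependent ℝ (fun l => F (b l))) :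
    ∃ C : ℝ, 0 < C ∧ ∀ R : ℝ, 1 ≤ R → {x : G | ‖F x‖ ≤ R}.Finite ∧
      ({x : G | ‖F x‖ ≤ R}.ncard : ℝ) ≤ C * R ^ (2 * D) := by
  obtain ⟨c, hc, C, hC, h⟩ := gauss_group hG D b F hind
  refine ⟨Real.exp 1 * (2 * C * 2 ^ D), by positivity, fun R hR => ?_⟩
  set N : ℕ := ⌈R ^ 2⌉₊ with hN
  have hR2 : (1 : ℝ) ≤ R ^ 2 := by nlinarith
  have hNR : R ^ 2 ≤ N := Nat.le_ceil _
  have hNR' : (N : ℝ) ≤ 2 * R ^ 2 := by
    have := Nat.ceil_lt_add_one (a := R ^ 2) (by positivity)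
    linarith
  have hN1 : 1 ≤ N := by
    have : (1 : ℝ) ≤ N := hR2.trans hNR
    exact_mod_cast this
  have hN0 : (0 : ℝ) < N := by exact_mod_cast hN1
  obtain ⟨κ, h1, h2, h3⟩ := h N hN1
  obtain ⟨h4, h5⟩ := h3 0 (Submodule.zero_mem _)
  simp only [zero_add] at h4 h5
  have hlow : ∀ x ∈ {x : G | ‖F x‖ ≤ R}, Real.exp (-1) ≤ Real.exp (-‖F x‖ ^ 2 / N) := by
    intro x hx
    apply Real.exp_le_exp.2
    rw [neg_div]
    apply neg_le_neg
    rw [div_le_one hN0]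
    have : ‖F x‖ ≤ R := hx
    nlinarith [norm_nonneg (F x)]
  have hfin : {x : G | ‖F x‖ ≤ R}.Finite := by
    have ht := h4.tendsto_cofinite_zero
    have hev := ht.eventually_lt_const (u := Real.exp (-1)) (Real.exp_pos _)
    refine Set.Finite.subset hev ?_
    intro x hx hlt
    exact absurd (hlow x hx) (not_le.2 hlt)
  refine ⟨hfin, ?_⟩
  have hsum : ({x : G | ‖F x‖ ≤ R}.ncard : ℝ) * Real.exp (-1) ≤
      ∑' y : G, Real.exp (-‖F y‖ ^ 2 / N) := by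
    rw [Set.ncard_eq_toFinset_card _ hfin, ← nsmul_eq_mul]
    refine (Finset.card_nsmul_le_sum _ _ _ fun x hx => hlow x ?_).trans
      (h4.sum_le_tsum hfin.toFinset fun x _ => (Real.exp_pos _).le)
    simpa using hx
  have hup : ∑' y : G, Real.exp (-‖F y‖ ^ 2 / N) ≤ 2 * C * (N : ℝ) ^ D := by
    have h6 := (abs_le.1 h5).2
    have h7 : C * (N : ℝ) ^ D * Real.exp (-c * N) ≤ C * (N : ℝ) ^ D * 1 := by
      have : Real.exp (-c * N) ≤ 1 := Real.exp_le_one_iff.2 (by nlinarith)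
      gcongr
    linarith
  have hND : (N : ℝ) ^ D ≤ 2 ^ D * R ^ (2 * D) := by
    calc (N : ℝ) ^ D ≤ (2 * R ^ 2) ^ D := by gcongr
      _ = 2 ^ D * R ^ (2 * D) := by rw [mul_pow, pow_mul]
  have hfinal : ({x : G | ‖F x‖ ≤ R}.ncard : ℝ) * Real.exp (-1) ≤ 2 * C * (2 ^ D * R ^ (2 * D)) := by
    refine hsum.trans (hup.trans ?_)
    gcongr
  have he : Real.exp 1 * Real.exp (-1) = 1 := by rw [← Real.exp_add]; simp
  calc ({x : G | ‖F x‖ ≤ R}.ncard : ℝ)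
      = Real.exp 1 * (({x : G | ‖F x‖ ≤ R}.ncard : ℝ) * Real.exp (-1)) := by
        rw [mul_comm _ (Real.exp (-1)), ← mul_assoc, he, one_mul]
    _ ≤ Real.exp 1 * (2 * C * (2 ^ D * R ^ (2 * D))) := by gcongr
    _ = Real.exp 1 * (2 * C * 2 ^ D) * R ^ (2 * D) := by ring

theorem main (hG : St_gauss) : St_count := by
  intro ι Λ A V W _ _ _ _ _ _ _ S
  obtain ⟨C₁, hC₁, h₁⟩ := count_group hG S.rkA S.basisA S.f S.basisA_ind
  obtain ⟨C₂, hC₂, h₂⟩ := count_group hG S.rk S.basis S.g S.basis_ind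
  refine ⟨C₁ + C₂, 2 * S.rkA + 2 * S.rk, by positivity, fun R hR => ?_⟩
  obtain ⟨f₁, b₁⟩ := h₁ R hR
  obtain ⟨f₂, b₂⟩ := h₂ R hR
  refine ⟨f₁, b₁.trans ?_, f₂, b₂.trans ?_⟩
  · apply mul_le_mul (by linarith) (pow_le_pow_right₀ hR (by omega)) (by positivity) (by positivity)
  · apply mul_le_mul (by linarith) (pow_le_pow_right₀ hR (by omega)) (by positivity) (by positivity)

end Pool.Agent.Run7.h24.SmythCount
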