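import Mathlib
import Pool.Agent.Run7.h446.Smyth.Iface

/-! # Piece GAUSS of the Smyth project (MP_ed3ef1_nt, MP_e29efe_nt) -/

open Finset Real

noncomputable section

namespace Pool.Agent.Run7.h24.SmythGauss

/-- summability of the shifted one-dimensional Gaussian -/
lemma summable_gauss_int {t : ℝ} (ht : 0 < t) (α : ℝ) :
    Summable (fun n : ℤ => Real.exp (-(t * (α + n) ^ 2))) := by
  have h := (summable_jacobiTheta₂_term_iff (Complex.I * (t * α / π)) (Complex.I * (t / π))).2 (by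
    simp; positivity)
  have h2 := h.norm
  have h3 : ∀ n : ℤ, Real.exp (-(t * (α + n) ^ 2)) =
      Real.exp (-(t * α ^ 2)) * ‖jacobiTheta₂_term n (Complex.I * (t * α / π)) (Complex.I * (t / π))‖ := by
    intro n
    rw [norm_jacobiTheta₂_term, ← Real.exp_add]
    congr 1
    have e1 : (Complex.I * ((t : ℂ) / π)).im = t / π := by
      rw [Complex.I_mul_im]; norm_cast
    have e2 : (Complex.I * ((t : ℂ) * α / π)).im = t * α / π := by
      rw [Complex.I_mul_im]; norm_cast
    rw [e1, e2]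
    have hpi : π ≠ 0 := Real.pi_ne_zero
    field_simp
    ring
  simp_rw [h3]
  exact h2.mul_left _

lemma theta_bound (a : ℝ) (ha : 0 < a) :
    ∃ c > (0 : ℝ), ∃ C > (0 : ℝ), ∀ N : ℕ, 1 ≤ N → ∃ κ : ℝ, 0 ≤ κ ∧ κ ≤ C * (N : ℝ) ∧
      ∀ α : ℝ, Summable (fun y : ℤ => Real.exp (-(a * (α + y) ^ 2) / N)) ∧
        |∑' y : ℤ, Real.exp (-(a * (α + y) ^ 2) / N) - κ| ≤ C * (N : ℝ) * Real.exp (-c * N) := by
  have hpi := Real.pi_pos
  set A₀ : ℝ := π / a with hA₀
  have hA₀pos : 0 < A₀ := by positivity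
  -- the total mass at `A₀`
  set T : ℝ := ∑' n : ℤ, Real.exp (-(π * A₀ * (0 + n) ^ 2)) with hT
  have hTs : Summable (fun n : ℤ => Real.exp (-(π * A₀ * (0 + n) ^ 2))) :=
    summable_gauss_int (by positivity) 0
  have hT0 : 0 ≤ T := tsum_nonneg fun n => (Real.exp_pos _).le
  refine ⟨π * A₀, by positivity, (1 + A₀) * (1 + T * Real.exp (π * A₀)), by positivity, ?_⟩
  intro N hN
  have hN1 : (1 : ℝ) ≤ N := by exact_mod_cast hN
  have hN0 : (0 : ℝ) < N := by linarith
  set A : ℝ := π * N / a with hA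
  have hApos : 0 < A := by positivity
  have hAA₀ : A = A₀ * N := by rw [hA, hA₀]; ring
  have hsq : Real.sqrt A ≤ (1 + A₀) * N := by
    have h1 : Real.sqrt A ≤ 1 + A := by
      rw [Real.sqrt_le_left (by positivity)]; nlinarith
    rw [hAA₀] at h1 ⊢
    nlinarith
  refine ⟨Real.sqrt A, Real.sqrt_nonneg _, ?_, ?_⟩
  · refine hsq.trans ?_
    have : (1 + A₀) * (N : ℝ) * 1 ≤ (1 + A₀) * N * (1 + T * Real.exp (π * A₀)) := by
      apply mul_le_mul_of_nonneg_left _ (by positivity)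
      have : 0 ≤ T * Real.exp (π * A₀) := by positivity
      linarith
    nlinarith
  intro α
  have hs : Summable (fun y : ℤ => Real.exp (-(a * (α + y) ^ 2) / N)) := by
    have := summable_gauss_int (t := a / N) (by positivity) α
    convert this using 2 with n
    congr 1
    ring
  refine ⟨hs, ?_⟩
  -- Poisson summation
  have key := Complex.tsum_exp_neg_quadratic (a := (A : ℂ)) (by simpa using hApos) (-Complex.I * α)
  have hrhs : (∑' n : ℤ, Complex.exp (-π / (A : ℂ) * (n + Complex.I * (-Complex.I * α)) ^ 2)) =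
      ((∑' y : ℤ, Real.exp (-(a * (α + y) ^ 2) / N) : ℝ) : ℂ) := by
    rw [Complex.ofReal_tsum]
    congr 1
    ext n
    rw [Complex.ofReal_exp]
    congr 1
    have : Complex.I * (-Complex.I * α) = (α : ℂ) := by
      rw [← mul_assoc, mul_neg, Complex.I_mul_I]; ring
    rw [this, hA]
    push_cast
    have h1 : (π : ℂ) ≠ 0 := by exact_mod_cast hpi.ne'
    have h2 : (a : ℂ) ≠ 0 := by exact_mod_cast ha.ne'
    have h3 : (N : ℂ) ≠ 0 := by exact_mod_cast hN0.ne'
    field_simp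
    ring
  rw [hrhs] at key
  have hcpow : (A : ℂ) ^ (1 / 2 : ℂ) = ((Real.sqrt A : ℝ) : ℂ) := by
    rw [Real.sqrt_eq_rpow, Complex.ofReal_cpow hApos.le]
    norm_num
  rw [hcpow] at key
  have hsqpos : 0 < Real.sqrt A := Real.sqrt_pos.2 hApos
  have hsqc : ((Real.sqrt A : ℝ) : ℂ) ≠ 0 := by exact_mod_cast hsqpos.ne'
  set F : ℤ → ℂ := fun n => Complex.exp (-π * (A : ℂ) * n ^ 2 + 2 * π * (-Complex.I * α) * n) with hF
  have hFnorm : ∀ n : ℤ, ‖F n‖ = Real.exp (-(π * A * (0 + n) ^ 2)) := by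
    intro n
    rw [hF]
    simp only
    rw [Complex.norm_exp]
    congr 1
    have : (-π * (A : ℂ) * n ^ 2 + 2 * π * (-Complex.I * α) * n) =
        ((-(π * A * (0 + n) ^ 2) : ℝ) : ℂ) + ((-(2 * π * α * n) : ℝ) : ℂ) * Complex.I := by
      push_cast; ring
    rw [this, Complex.add_re, Complex.ofReal_re, Complex.re_ofReal_mul, Complex.I_re, mul_zero,
      add_zero]
  have hFs : Summable F := by
    apply Summable.of_norm
    simp_rw [hFnorm]
    exact summable_gauss_int (by positivity) 0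
  have hF0 : F 0 = 1 := by simp [hF]
  have hsplit := hFs.tsum_eq_add_tsum_ite 0
  have hbound : ‖∑' n : ℤ, ite (n = 0) 0 (F n)‖ ≤ T * Real.exp (π * A₀) * Real.exp (-(π * A₀) * N) := by
    have hb : ∀ n : ℤ, ‖ite (n = 0) 0 (F n)‖ ≤
        Real.exp (-(π * A₀ * (0 + n) ^ 2)) * (Real.exp (π * A₀) * Real.exp (-(π * A₀) * N)) := by
      intro n
      split_ifs with hn
      · simp; positivity
      · rw [hFnorm, ← Real.exp_add, ← Real.exp_add]
        apply Real.exp_le_exp.2
        have hn1 : (1 : ℝ) ≤ (n : ℝ) ^ 2 := by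
          have : (1 : ℤ) ≤ n ^ 2 := by
            have := Int.one_le_abs hn
            nlinarith [sq_abs n]
          exact_mod_cast this
        rw [hAA₀]
        have : 0 ≤ π * A₀ * (((N : ℝ) - 1) * ((n : ℝ) ^ 2 - 1)) := by
          apply mul_nonneg (by positivity)
          apply mul_nonneg <;> linarith
        nlinarith
    have hsum := hTs.mul_right (Real.exp (π * A₀) * Real.exp (-(π * A₀) * N))
    refine (tsum_of_norm_bounded hsum.hasSum hb).trans ?_
    rw [tsum_mul_right, ← hT]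
    apply le_of_eq; ring
  have hmain : ((∑' y : ℤ, Real.exp (-(a * (α + y) ^ 2) / N) : ℝ) : ℂ) - ((Real.sqrt A : ℝ) : ℂ) =
      ((Real.sqrt A : ℝ) : ℂ) * ∑' n : ℤ, ite (n = 0) 0 (F n) := by
    have h1 : ((∑' y : ℤ, Real.exp (-(a * (α + y) ^ 2) / N) : ℝ) : ℂ) =
        ((Real.sqrt A : ℝ) : ℂ) * ∑' n : ℤ, F n := by
      rw [hF, key]; field_simp
    rw [h1, hsplit, hF0]; ring
  have hnorm : |∑' y : ℤ, Real.exp (-(a * (α + y) ^ 2) / N) - Real.sqrt A| =
      Real.sqrt A * ‖∑' n : ℤ, ite (n = 0) 0 (F n)‖ := by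
    rw [← Real.norm_eq_abs, ← Complex.norm_real, Complex.ofReal_sub, hmain, norm_mul,
      Complex.norm_real, Real.norm_of_nonneg hsqpos.le]
  rw [hnorm]
  have hE : 0 < Real.exp (-(π * A₀) * N) := Real.exp_pos _
  calc Real.sqrt A * ‖∑' n : ℤ, ite (n = 0) 0 (F n)‖
      ≤ ((1 + A₀) * N) * (T * Real.exp (π * A₀) * Real.exp (-(π * A₀) * N)) :=
        mul_le_mul hsq hbound (norm_nonneg _) (by positivity)
    _ ≤ (1 + A₀) * (1 + T * Real.exp (π * A₀)) * N * Real.exp (-(π * A₀) * N) := by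
        have : (1 + A₀) * N * (T * Real.exp (π * A₀) * Real.exp (-(π * A₀) * N)) =
          ((1 + A₀) * N * Real.exp (-(π * A₀) * N)) * (T * Real.exp (π * A₀)) := by ring
        rw [this]
        have h2 : (1 + A₀) * (1 + T * Real.exp (π * A₀)) * N * Real.exp (-(π * A₀) * N) =
          ((1 + A₀) * N * Real.exp (-(π * A₀) * N)) * (1 + T * Real.exp (π * A₀)) := by ring
        rw [h2]
        apply mul_le_mul_of_nonneg_left _ (by positivity)
        linarith

variable {V : Type} [NormedAddCommGroup V] [InnerProductSpace ℝ V]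

/-- orthogonal projection away from `v` -/
def prp (v : V) : V →ₗ[ℝ] V :=
  LinearMap.id - ((innerₛₗ ℝ v).smulRight ((‖v‖ ^ 2)⁻¹ • v))

lemma prp_apply (v w : V) : prp v w = w - (inner ℝ v w / ‖v‖ ^ 2) • v := by
  simp [prp, smul_smul, div_eq_mul_inv]

lemma prp_self (v : V) (hv : v ≠ 0) : prp v v = 0 := by
  rw [prp_apply, real_inner_self_eq_norm_sq, div_self (by positivity), one_smul, sub_self]

lemma norm_decomp (v : V) (hv : v ≠ 0) (u : V) (y : ℝ) :
    ‖u + y • v‖ ^ 2 = ‖v‖ ^ 2 * (inner ℝ v u / ‖v‖ ^ 2 + y) ^ 2 + ‖prp v u‖ ^ 2 := by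
  have hv2 : ‖v‖ ^ 2 ≠ 0 := by positivity
  rw [prp_apply, norm_add_sq_real, norm_sub_sq_real, norm_smul, norm_smul, inner_smul_right,
    inner_smul_right, real_inner_comm v u]
  simp only [mul_pow, Real.norm_eq_abs, sq_abs]
  field_simp
  ring

theorem main : Pool.Agent.Run7.h446.Smyth.St_gauss := by
  intro V _ _ D
  induction D with
  | zero =>
    intro e _
    refine ⟨1, one_pos, 1, one_pos, fun N hN => ⟨1, zero_le_one, by simp, fun s hs => ?_⟩⟩
    have hs0 : s = 0 := by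
      simpa using hs
    subst hs0
    refine ⟨Summable.of_finite, ?_⟩
    simp
    positivity
  | succ D ih =>
    intro e he
    set v := e 0 with hv
    have hv0 : v ≠ 0 := he.ne_zero 0
    have hv2 : 0 < ‖v‖ ^ 2 := by positivity
    set e' : Fin D → V := fun l => prp v (e l.succ) with he'
    have hind : LinearIndependent ℝ e' := by
      rw [Fintype.linearIndependent_iff] at he ⊢
      intro g hg
      have h0 : ∑ l : Fin (D + 1),
          (Fin.cons (-(∑ l, g l * (inner ℝ v (e l.succ) / ‖v‖ ^ 2))) g : Fin (D + 1) → ℝ) l • e l = 0 := by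
        rw [Fin.sum_univ_succ]
        simp only [Fin.cons_zero, Fin.cons_succ]
        rw [← hg]
        simp only [he', prp_apply, smul_sub, Finset.sum_sub_distrib, neg_smul, Finset.sum_smul,
          mul_smul, ← hv]
        abel
      intro l
      have := he _ h0 l.succ
      simpa using this
    obtain ⟨c', hc', C', hC', ih'⟩ := ih e' hind
    obtain ⟨c₀, hc₀, C₀, hC₀, h0⟩ := theta_bound (‖v‖ ^ 2) hv2
    refine ⟨min c₀ c', lt_min hc₀ hc', 3 * C₀ * C' + C₀ * C', by positivity, fun N hN => ?_⟩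
    obtain ⟨κ₀, hκ₀, hκ₀', h0'⟩ := h0 N hN
    obtain ⟨κ', hκ', hκ'', ih''⟩ := ih' N hN
    have hN1 : (1 : ℝ) ≤ N := by exact_mod_cast hN
    have hN0 : (0 : ℝ) < N := by linarith
    refine ⟨κ₀ * κ', by positivity, ?_, ?_⟩
    · calc κ₀ * κ' ≤ (C₀ * N) * (C' * (N : ℝ) ^ D) := by gcongr
        _ ≤ (3 * C₀ * C' + C₀ * C') * (N : ℝ) ^ (D + 1) := by
          rw [pow_succ]
          have : 0 < C₀ * C' * ((N : ℝ) ^ D * N) := by positivity
          nlinarith
    intro s hs
    have hs' : prp v s ∈ Submodule.span ℝ (Set.range e') := by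
      obtain ⟨cs, hcs⟩ := (Submodule.mem_span_range_iff_exists_fun ℝ).1 hs
      rw [← hcs, Fin.sum_univ_succ, map_add, map_smul, ← hv, prp_self v hv0, smul_zero, zero_add,
        map_sum]
      apply Submodule.sum_mem
      intro l _
      rw [map_smul]
      exact Submodule.smul_mem _ _ (Submodule.subset_span ⟨l, rfl⟩)
    obtain ⟨hsum', herr'⟩ := ih'' (prp v s) hs'
    -- the function on the product
    set α : (Fin D → ℤ) → ℝ := fun y => inner ℝ v (s + ∑ l, (y l : ℝ) • e l.succ) / ‖v‖ ^ 2 with hα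
    set G : (Fin D → ℤ) → ℝ := fun y => Real.exp (-‖prp v s + ∑ l, (y l : ℝ) • e' l‖ ^ 2 / N) with hG
    set H : (Fin D → ℤ) → ℤ → ℝ := fun y n => Real.exp (-(‖v‖ ^ 2 * (α y + n) ^ 2) / N) with hH
    set f : (Fin D → ℤ) × ℤ → ℝ := fun p => G p.1 * H p.1 p.2 with hf
    let E : (Fin D → ℤ) × ℤ ≃ (Fin (D + 1) → ℤ) :=
      (Equiv.prodComm _ _).trans (Fin.consEquiv (fun _ => ℤ))
    have hfE : ∀ p, Real.exp (-‖s + ∑ l, ((E p l : ℤ) : ℝ) • e l‖ ^ 2 / N) = f p := by
      rintro ⟨y, n⟩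
      have h1 : s + ∑ l, ((E (y, n) l : ℤ) : ℝ) • e l =
          (s + ∑ l : Fin D, (y l : ℝ) • e l.succ) + (n : ℝ) • v := by
        rw [Fin.sum_univ_succ]
        simp [E, Fin.consEquiv, hv]
        abel
      rw [h1, norm_decomp v hv0]
      simp only [hf, hG, hH]
      rw [← Real.exp_add]
      congr 1
      have h2 : prp v (s + ∑ l : Fin D, (y l : ℝ) • e l.succ) =
          prp v s + ∑ l, (y l : ℝ) • e' l := by
        rw [map_add, map_sum]; simp [he']
      rw [h2]
      simp only [hα]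
      ring
    have hGnn : ∀ y, 0 ≤ G y := fun y => (Real.exp_pos _).le
    have hfnn : 0 ≤ f := fun p => mul_nonneg (hGnn _) (Real.exp_pos _).le
    have hHt : ∀ y, |∑' n, H y n - κ₀| ≤ C₀ * N * Real.exp (-c₀ * N) := fun y => (h0' (α y)).2
    have hHs : ∀ y, Summable (H y) := fun y => (h0' (α y)).1
    have hinner : ∀ y, ∑' n, f (y, n) = G y * ∑' n, H y n := fun y => by
      simp only [hf]; rw [tsum_mul_left]
    have hHbd : ∀ y, ∑' n, H y n ≤ κ₀ + C₀ * N * Real.exp (-c₀ * N) := fun y => by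
      have := (abs_le.1 (hHt y)).2; linarith
    have hHnn : ∀ y, 0 ≤ ∑' n, H y n := fun y => tsum_nonneg fun n => (Real.exp_pos _).le
    have hGHs : Summable (fun y => G y * ∑' n, H y n) := by
      refine Summable.of_nonneg_of_le (fun y => mul_nonneg (hGnn y) (hHnn y)) (fun y => ?_)
        (hsum'.mul_right (κ₀ + C₀ * N * Real.exp (-c₀ * N)))
      exact mul_le_mul_of_nonneg_left (hHbd y) (hGnn y)
    have hfs : Summable f := by
      rw [summable_prod_of_nonneg hfnn]
      refine ⟨fun y => ?_, ?_⟩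
      · have h5 : Summable (fun n => G y * H y n) := Summable.mul_left (G y) (hHs y)
        exact h5
      · simp_rw [hinner]
        exact hGHs
    have hfun : (fun y : Fin (D + 1) → ℤ => Real.exp (-‖s + ∑ l, (y l : ℝ) • e l‖ ^ 2 / N)) =
        f ∘ E.symm := by
      ext y
      have := hfE (E.symm y)
      simpa using this
    rw [hfun]
    refine ⟨(E.symm.summable_iff).2 hfs, ?_⟩
    have htot : ∑' y, (f ∘ E.symm) y = ∑' y, G y * ∑' n, H y n := by
      rw [Function.comp_def, E.symm.tsum_eq f, hfs.tsum_prod]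
      simp_rw [hinner]
    rw [htot]
    have hT : 0 ≤ ∑' y, G y := tsum_nonneg hGnn
    have herrG : |∑' y, G y - κ'| ≤ C' * (N : ℝ) ^ D * Real.exp (-c' * N) := herr'
    have hdiff : |∑' y, G y * ∑' n, H y n - κ₀ * ∑' y, G y| ≤
        (C₀ * N * Real.exp (-c₀ * N)) * ∑' y, G y := by
      rw [← tsum_mul_left, ← Summable.tsum_sub hGHs (hsum'.mul_left _), ← Real.norm_eq_abs]
      refine (tsum_of_norm_bounded (hsum'.mul_left (C₀ * N * Real.exp (-c₀ * N))).hasSum
        (fun y => ?_)).trans (le_of_eq tsum_mul_left)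
      have : G y * ∑' n, H y n - κ₀ * G y = (∑' n, H y n - κ₀) * G y := by ring
      change ‖G y * ∑' n, H y n - κ₀ * G y‖ ≤ _
      rw [this, norm_mul, Real.norm_eq_abs, Real.norm_of_nonneg (hGnn y)]
      exact mul_le_mul_of_nonneg_right (hHt y) (hGnn y)
    -- combine
    have hEc₀ : Real.exp (-c₀ * N) ≤ Real.exp (-(min c₀ c') * N) := by
      apply Real.exp_le_exp.2
      have := min_le_left c₀ c'
      nlinarith
    have hEc' : Real.exp (-c' * N) ≤ Real.exp (-(min c₀ c') * N) := by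
      apply Real.exp_le_exp.2
      have := min_le_right c₀ c'
      nlinarith
    have hE1 : Real.exp (-c' * N) ≤ 1 := by
      apply Real.exp_le_one_iff.2; nlinarith
    set M := Real.exp (-(min c₀ c') * N) with hM
    have hMpos : 0 < M := Real.exp_pos _
    have hTb : ∑' y, G y ≤ 2 * C' * (N : ℝ) ^ D := by
      have h1 := (abs_le.1 herrG).2
      have h2 : C' * (N : ℝ) ^ D * Real.exp (-c' * N) ≤ C' * (N : ℝ) ^ D * 1 := by gcongr
      linarith
    have h3 : |∑' y, G y * ∑' n, H y n - κ₀ * κ'| ≤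
        (C₀ * N * Real.exp (-c₀ * N)) * ∑' y, G y + κ₀ * (C' * (N : ℝ) ^ D * Real.exp (-c' * N)) := by
      have : ∑' y, G y * ∑' n, H y n - κ₀ * κ' =
          (∑' y, G y * ∑' n, H y n - κ₀ * ∑' y, G y) + κ₀ * (∑' y, G y - κ') := by ring
      rw [this]
      refine (abs_add_le _ _).trans (add_le_add hdiff ?_)
      rw [abs_mul, abs_of_nonneg hκ₀]
      exact mul_le_mul_of_nonneg_left herrG hκ₀
    refine h3.trans ?_
    calc (C₀ * N * Real.exp (-c₀ * N)) * ∑' y, G y + κ₀ * (C' * (N : ℝ) ^ D * Real.exp (-c' * N))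
        ≤ (C₀ * N * M) * (2 * C' * (N : ℝ) ^ D) + (C₀ * N) * (C' * (N : ℝ) ^ D * M) := by
          gcongr
      _ ≤ (3 * C₀ * C' + C₀ * C') * (N : ℝ) ^ (D + 1) * M := by
          rw [pow_succ]
          have : 0 < C₀ * C' * ((N : ℝ) ^ D * N) * M := by positivity
          nlinarith

end Pool.Agent.Run7.h24.SmythGauss
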