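import Pool.Agent.Run7.h71.CD.Stm

/-! # Project CD, piece EVN (helper24) -/

set_option autoImplicit false

namespace Pool.Agent.Run7.h71.CD

open Set Filter Topology Asymptotics
open scoped ContDiff

theorem taylor3 {g : ℝ → ℝ} (hg : ContDiffAt ℝ ∞ g 0) (h1 : iteratedDeriv 1 g 0 = 0)
    (h2 : iteratedDeriv 2 g 0 = 2) (h3 : iteratedDeriv 3 g 0 = 0) :
    (fun x => g x - (g 0 + x ^ 2)) =o[𝓝 0] fun x : ℝ => x ^ 3 := by
  obtain ⟨u, hu, hgu⟩ := hg.contDiffOn (m := 3) (by exact WithTop.coe_le_coe.2 (le_top : (3 : ℕ∞) ≤ ⊤)) (by simp)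
  obtain ⟨r, hr, hru⟩ := Metric.mem_nhds_iff.1 hu
  have h := taylor_isLittleO (n := 3) (convex_ball (0 : ℝ) r) (Metric.mem_ball_self hr)
    (by exact_mod_cast hgu.mono hru)
  rw [Metric.isOpen_ball.nhdsWithin_eq (Metric.mem_ball_self hr)] at h
  have e : ∀ k, iteratedDerivWithin k g (Metric.ball 0 r) 0 = iteratedDeriv k g 0 := fun k =>
    iteratedDerivWithin_of_isOpen Metric.isOpen_ball (Metric.mem_ball_self hr)
  refine (h.congr (fun x => ?_) (fun x => ?_))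
  · rw [taylor_within_apply]
    simp only [Finset.sum_range_succ, Finset.sum_range_zero, e, h1, h2, h3, iteratedDeriv_zero]
    simp
    ring
  · rw [sub_zero]

theorem EVN : S_EVN := by
  intro g c hg h1 h2 h3 hinv
  have hT := taylor3 hg h1 h2 h3
  have hc1 : Tendsto (fun s : ℝ => 1 + c * s) (𝓝 0) (𝓝 1) := by
    have : Continuous fun s : ℝ => 1 + c * s := by fun_prop
    simpa using this.tendsto 0
  have hne : ∀ᶠ s : ℝ in 𝓝 0, 1 + c * s ≠ 0 := hc1.eventually_ne one_ne_zero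
  have hσ : Tendsto (fun s : ℝ => -s / (1 + c * s)) (𝓝 0) (𝓝 0) := by
    have : Tendsto (fun s : ℝ => -s) (𝓝 0) (𝓝 0) := by
      simpa using (continuous_neg (G := ℝ)).tendsto 0
    have h := this.div hc1 one_ne_zero
    rw [zero_div] at h
    exact h
  have hO : (fun s : ℝ => (-s / (1 + c * s)) ^ 3) =O[𝓝 0] fun s : ℝ => s ^ 3 := by
    have e1 : (fun s : ℝ => (-s / (1 + c * s)) ^ 3) = fun s : ℝ => (-(1 + c * s)⁻¹ ^ 3) * s ^ 3 := by
      funext s; rw [div_eq_mul_inv]; ring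
    rw [e1]
    have e2 : (fun s : ℝ => -(1 + c * s)⁻¹ ^ 3) =O[𝓝 0] fun _ : ℝ => (1 : ℝ) := by
      have : Tendsto (fun s : ℝ => -(1 + c * s)⁻¹ ^ 3) (𝓝 0) (𝓝 (-(1 : ℝ)⁻¹ ^ 3)) :=
        ((hc1.inv₀ one_ne_zero).pow 3).neg
      exact this.isBigO_one ℝ
    simpa using e2.mul (isBigO_refl (fun s : ℝ => s ^ 3) (𝓝 0))
  have hT2 : (fun s : ℝ => g (-s / (1 + c * s)) - (g 0 + (-s / (1 + c * s)) ^ 2)) =o[𝓝 0] fun s : ℝ => s ^ 3 :=
    (hT.comp_tendsto hσ).trans_isBigO hO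
  have hd : (fun s : ℝ => (-s / (1 + c * s)) ^ 2 - s ^ 2) =o[𝓝 0] fun s : ℝ => s ^ 3 := by
    refine (hT.sub hT2).congr' ?_ (EventuallyEq.refl _ _)
    filter_upwards [hinv] with s hs
    rw [← hs]
    ring
  have hlim0 : Tendsto (fun s : ℝ => ((-s / (1 + c * s)) ^ 2 - s ^ 2) / s ^ 3) (𝓝[≠] 0) (𝓝 0) :=
    (hd.mono nhdsWithin_le_nhds).tendsto_div_nhds_zero
  have hlim1 : Tendsto (fun s : ℝ => (-2 * c - c ^ 2 * s) / (1 + c * s) ^ 2) (𝓝[≠] 0) (𝓝 (-2 * c)) := by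
    have a1 : Tendsto (fun s : ℝ => -2 * c - c ^ 2 * s) (𝓝 0) (𝓝 (-2 * c)) := by
      have : Continuous fun s : ℝ => -2 * c - c ^ 2 * s := by fun_prop
      simpa using this.tendsto 0
    have a2 := a1.div (hc1.pow 2) (by norm_num)
    rw [one_pow, div_one] at a2
    exact a2.mono_left nhdsWithin_le_nhds
  have heq : (fun s : ℝ => ((-s / (1 + c * s)) ^ 2 - s ^ 2) / s ^ 3) =ᶠ[𝓝[≠] 0]
      fun s : ℝ => (-2 * c - c ^ 2 * s) / (1 + c * s) ^ 2 := by
    filter_upwards [nhdsWithin_le_nhds hne, self_mem_nhdsWithin] with s hs hs0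
    have hs0' : s ≠ 0 := hs0
    have hs' : 1 + c * s ≠ 0 := hs
    rw [div_eq_div_iff (pow_ne_zero 3 hs0') (pow_ne_zero 2 hs')]
    have h : -s / (1 + c * s) * (1 + c * s) = -s := div_mul_cancel₀ _ hs'
    linear_combination (-s / (1 + c * s) * (1 + c * s) - s) * h
  have hc : c = 0 := by
    have := tendsto_nhds_unique (hlim0.congr' heq) hlim1
    linarith
  subst hc
  intro k hk
  have h4 : g =ᶠ[𝓝 0] fun s => g (-s) := by
    filter_upwards [hinv] with s hs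
    rw [hs]
    congr 1
    simp
  have h5 := h4.iteratedDeriv_eq k
  rw [iteratedDeriv_comp_neg, hk.neg_one_pow, neg_zero] at h5
  simp only [neg_smul, one_smul] at h5
  linarith

end Pool.Agent.Run7.h71.CD
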