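import Pool.Agent.Run7.h71.CD.Stm

/-! # Project CD, piece FIN (helper24) -/

set_option autoImplicit false

namespace Pool.Agent.Run7.h71.CD

open Set Filter Topology
open scoped ContDiff

namespace Fin24

/-- the bilinear form -/
def bf (Q : Matrix (Fin 3) (Fin 3) ℝ) (X V : E3) : ℝ := ∑ i, ∑ j, Q i j * X i * V j

theorem qf_eq_bf (Q : Matrix (Fin 3) (Fin 3) ℝ) (X : E3) : qf Q X = bf Q X X := rfl

theorem bf_lin (a b : ℝ) (P Q : Matrix (Fin 3) (Fin 3) ℝ) (X V : E3) :
    bf (a • P + b • Q) X V = a * bf P X V + b * bf Q X V := by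
  simp only [bf, Fin.sum_univ_three, Matrix.add_apply, Matrix.smul_apply, smul_eq_mul]
  ring

theorem qf_lin (a b : ℝ) (P Q : Matrix (Fin 3) (Fin 3) ℝ) (X : E3) :
    qf (a • P + b • Q) X = a * qf P X + b * qf Q X := bf_lin a b P Q X X

theorem bf_add (Q : Matrix (Fin 3) (Fin 3) ℝ) (X : E3) (a b : ℝ) (V W : E3) :
    bf Q X (a • V + b • W) = a * bf Q X V + b * bf Q X W := by
  simp only [bf, Fin.sum_univ_three, Pi.add_apply, Pi.smul_apply, smul_eq_mul]
  ring

theorem qf_line {Q : Matrix (Fin 3) (Fin 3) ℝ} (hQ : Q.IsSymm) (X V : E3) (t : ℝ) :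
    qf Q (X + t • V) = qf Q X + t * (2 * bf Q X V) + t ^ 2 * qf Q V := by
  have h01 := hQ.apply 0 1
  have h02 := hQ.apply 0 2
  have h12 := hQ.apply 1 2
  simp only [qf, bf, Fin.sum_univ_three, Pi.add_apply, Pi.smul_apply, smul_eq_mul]
  rw [h01, h02, h12]
  ring

theorem hasDerivAt_qf {Q : Matrix (Fin 3) (Fin 3) ℝ} (hQ : Q.IsSymm) (X V : E3) :
    HasDerivAt (fun t : ℝ => qf Q (X + t • V)) (2 * bf Q X V) 0 := by
  have e : (fun t : ℝ => qf Q (X + t • V)) = fun t : ℝ => qf Q X + t * (2 * bf Q X V) + t ^ 2 * qf Q V := by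
    funext t; exact qf_line hQ X V t
  rw [e]
  have h1 : HasDerivAt (fun t : ℝ => qf Q X + t * (2 * bf Q X V) + t ^ 2 * qf Q V)
      (0 + 1 * (2 * bf Q X V) + (2 : ℕ) * (0 : ℝ) ^ (2 - 1) * qf Q V) 0 :=
    (((hasDerivAt_const (0 : ℝ) (qf Q X)).add ((hasDerivAt_id (0 : ℝ)).mul_const _)).add
      ((hasDerivAt_pow 2 (0 : ℝ)).mul_const _))
  convert h1 using 1
  simp

theorem hom_line (x v : ℝ × ℝ) (t : ℝ) : hom (x + t • v) = hom x + t • (![v.1, v.2, 0] : E3) := by
  funext i
  fin_cases i <;> simp [hom]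

theorem contDiff_hom : ContDiff ℝ ∞ hom := by
  rw [contDiff_pi]
  intro i
  fin_cases i
  · exact contDiff_fst
  · exact contDiff_snd
  · exact contDiff_const

theorem contDiff_qf (Q : Matrix (Fin 3) (Fin 3) ℝ) : ContDiff ℝ ∞ (qf Q) := by
  unfold qf
  refine ContDiff.sum fun i _ => ContDiff.sum fun j _ => ?_
  exact (contDiff_const.mul (contDiff_apply ℝ ℝ i)).mul (contDiff_apply ℝ ℝ j)

end Fin24

open Fin24

theorem FIN : S_FIN := by
  intro lft' par lvl out setup U F S hU hL hS hP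
  obtain ⟨ζ, hζ⟩ := setup U F S hL hS hP
  obtain ⟨B, C, w, h, hPar, hBC, hBζ, hh, hh2, hspan⟩ := out U F ζ hL hζ
  obtain ⟨lo, ls, lr, lh, lE, ld, lc⟩ := lft' U F hL.isOpen hL.smooth
  have hpar := par (cone U) B C w lo (lc hU) hPar
  obtain ⟨x₀, hx₀⟩ := hU.nonempty
  have hX₀ := (lh x₀ hx₀).1
  obtain ⟨sB, sC, dB, qB, qC⟩ := hBC _ hX₀
  refine ⟨B (hom x₀), C (hom x₀), sB, sC, ?_, ?_, ?_⟩
  · rw [LinearIndependent.pair_iff]
    intro s t hst
    have h1 := qf_lin s t (B (hom x₀)) (C (hom x₀)) (hom x₀)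
    rw [hst, qB, qC] at h1
    have h2 : qf (0 : Matrix (Fin 3) (Fin 3) ℝ) (hom x₀) = 0 := by simp [qf]
    have ht : t = 0 := by rw [h2] at h1; linarith
    subst ht
    refine ⟨?_, rfl⟩
    by_contra hs
    rw [zero_smul, add_zero] at hst
    have h3 : B (hom x₀) = 0 := (smul_eq_zero.1 hst).resolve_left hs
    apply dB
    rw [h3, Matrix.det_zero]
  · intro x hx
    by_contra hcon
    rw [not_or, not_not, not_not] at hcon
    have hX := (lh x hx).1
    obtain ⟨α, β, e⟩ := (hpar _ hX₀ _ hX).2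
    have h1 := (hBC _ hX).2.2.2.2
    rw [e, qf_lin, hcon.1, hcon.2] at h1
    norm_num at h1
  · intro L hLU hLp hlev
    rcases L.eq_empty_or_nonempty with rfl | ⟨y₀, hy₀⟩
    · refine ⟨1, 0, ?_, fun x hx => absurd hx (notMem_empty x)⟩
      rw [one_smul, zero_smul, add_zero]
      exact dB
    · have hY₀ := (lh y₀ (hLU hy₀)).1
      obtain ⟨α, β, e⟩ := (hpar _ hX₀ _ hY₀).1
      obtain ⟨sQ, _, dQ, qQ, _⟩ := hBC _ hY₀
      refine ⟨α, β, by rw [← e]; exact dQ, ?_⟩
      rw [← e]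
      set Q := B (hom y₀) with hQ
      have hhne : ∀ x ∈ U, h (hom x) ≠ 0 := fun x hx => (hh2 _ (lh x hx).1).1
      have hhom : ContDiffOn ℝ ∞ (fun x => h (hom x)) U :=
        hh.comp contDiff_hom.contDiffOn fun x hx => (lh x hx).1
      have hR : ContDiffOn ℝ ∞ (fun x : ℝ × ℝ => qf Q (hom x) ^ 3 / h (hom x) ^ 2) U :=
        (((contDiff_qf Q).comp contDiff_hom).contDiffOn.pow 3).div (hhom.pow 2)
          fun x hx => pow_ne_zero 2 (hhne x hx)
      have hder : ∀ x ∈ U, ∀ v : ℝ × ℝ, fderiv ℝ F x v = 0 →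
          fderiv ℝ (fun x : ℝ × ℝ => qf Q (hom x) ^ 3 / h (hom x) ^ 2) x v = 0 := by
        intro x hx v hv
        have hX := (lh x hx).1
        have hV := ld x hx v
        rw [hv] at hV
        obtain ⟨a, b, hab⟩ := hspan _ hX _ hV
        have hdiff : DifferentiableAt ℝ (fun x : ℝ × ℝ => qf Q (hom x) ^ 3 / h (hom x) ^ 2) x :=
          (hR.contDiffAt (hL.isOpen.mem_nhds hx)).differentiableAt (by simp)
        have hdh : DifferentiableAt ℝ h (hom x) :=
          (hh.contDiffAt (lo.mem_nhds hX)).differentiableAt (by simp)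
        -- derivative along the line
        have hline : HasDerivAt (fun t : ℝ => x + t • v) v 0 := by
          have := ((hasDerivAt_id (0 : ℝ)).smul_const v).const_add x
          simpa using this
        have hlineX : HasDerivAt (fun t : ℝ => hom x + t • (![v.1, v.2, 0] : E3)) (![v.1, v.2, 0] : E3) 0 := by
          have := ((hasDerivAt_id (0 : ℝ)).smul_const (![v.1, v.2, 0] : E3)).const_add (hom x)
          simpa using this
        have h1 : HasDerivAt (fun t : ℝ => (fun x : ℝ × ℝ => qf Q (hom x) ^ 3 / h (hom x) ^ 2) (x + t • v))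
            (fderiv ℝ (fun x : ℝ × ℝ => qf Q (hom x) ^ 3 / h (hom x) ^ 2) x v) 0 := by
          have hd2 : HasFDerivAt (fun x : ℝ × ℝ => qf Q (hom x) ^ 3 / h (hom x) ^ 2)
              (fderiv ℝ (fun x : ℝ × ℝ => qf Q (hom x) ^ 3 / h (hom x) ^ 2) x) (x + (0 : ℝ) • v) := by
            rw [zero_smul, add_zero]; exact hdiff.hasFDerivAt
          exact hd2.comp_hasDerivAt 0 hline
        have h2 : HasDerivAt (fun t : ℝ => h (hom x + t • (![v.1, v.2, 0] : E3)))
            (fderiv ℝ h (hom x) ![v.1, v.2, 0]) 0 := by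
          have hd2 : HasFDerivAt h (fderiv ℝ h (hom x)) (hom x + (0 : ℝ) • (![v.1, v.2, 0] : E3)) := by
            rw [zero_smul, add_zero]; exact hdh.hasFDerivAt
          exact hd2.comp_hasDerivAt 0 hlineX
        have h3 := hasDerivAt_qf sQ (hom x) (![v.1, v.2, 0] : E3)
        have hne0 : h (hom x + (0 : ℝ) • (![v.1, v.2, 0] : E3)) ^ 2 ≠ 0 := by
          rw [zero_smul, add_zero]; exact pow_ne_zero 2 (hhne x hx)
        have h4 := (h3.pow 3).div (h2.pow 2) hne0
        have h5 : (fun t : ℝ => (fun x : ℝ × ℝ => qf Q (hom x) ^ 3 / h (hom x) ^ 2) (x + t • v)) =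
            ((fun t : ℝ => qf Q (hom x + t • (![v.1, v.2, 0] : E3))) ^ 3) /
            ((fun t : ℝ => h (hom x + t • (![v.1, v.2, 0] : E3))) ^ 2) := by
          funext t
          simp only [Pi.div_apply, Pi.pow_apply, hom_line]
        rw [h5] at h1
        have h6 := h1.unique h4
        rw [h6]
        -- values
        have v1 : bf Q (hom x) ![v.1, v.2, 0] = a * qf Q (hom x) := by
          rw [hab, bf_add, qf_eq_bf]
          obtain ⟨α', β', e'⟩ := (hpar _ hX _ hY₀).1
          have : bf Q (hom x) (ζ (hom x)) = 0 := by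
            rw [hQ, e', bf_lin]
            have z1 : bf (B (hom x)) (hom x) (ζ (hom x)) = 0 := (hBζ _ hX).1
            have z2 : bf (C (hom x)) (hom x) (ζ (hom x)) = 0 := (hBζ _ hX).2
            rw [z1, z2]; ring
          rw [this]; ring
        have v2 : fderiv ℝ h (hom x) ![v.1, v.2, 0] = 3 * a * h (hom x) := by
          rw [hab, map_add, map_smul, map_smul, (hh2 _ hX).2.1, (hh2 _ hX).2.2]
          simp only [smul_eq_mul]
          ring
        rw [v1, v2]
        simp only [Pi.pow_apply, zero_smul, add_zero]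
        have hne := hhne x hx
        rw [div_eq_zero_iff]
        left
        push_cast
        ring
      intro x hx
      have h1 := lvl U F _ hL.isOpen hL.smooth hR hL.regular hder L hLU hLp hlev x hx y₀ hy₀
      rw [qQ] at h1
      have h2 : qf Q (hom x) ^ 3 / h (hom x) ^ 2 = 0 := by rw [h1]; simp
      rcases div_eq_zero_iff.1 h2 with h3 | h3
      · exact pow_eq_zero_iff (by norm_num) |>.1 h3
      · exact absurd h3 (pow_ne_zero 2 (hhne x (hLU hx)))

end Pool.Agent.Run7.h71.CD
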