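import Pool.Agent.Run7.h568.DG.Iface

/-! # DG (helper568), piece exc (helper24): four families of 2x2 matrices -/

open Real Matrix

noncomputable section

namespace Run7.h24.DG

open Run7.h568.DG

theorem lin_rec (P L R : Matrix (Fin 2) (Fin 2) ℝ) (t : ℝ) (hP : P * P = t • P - 1)
    (f : ℕ → Matrix (Fin 2) (Fin 2) ℝ) (hf : ∀ m, f (m + 2) = t • f (m + 1) - f m) (h0 : L * R = f 0)
    (h1 : L * P * R = f 1) : ∀ m, L * P ^ m * R = f m := by
  suffices h : ∀ m, L * P ^ m * R = f m ∧ L * P ^ (m + 1) * R = f (m + 1) from fun m => (h m).1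
  intro m
  induction m with
  | zero => exact ⟨by rw [pow_zero, mul_one, h0], by rw [zero_add, pow_one, h1]⟩
  | succ m ih =>
    refine ⟨ih.2, ?_⟩
    have e : P ^ (m + 1 + 1) = t • P ^ (m + 1) - P ^ m := by
      rw [pow_succ, pow_succ, mul_assoc, hP, mul_sub, mul_one, mul_smul_comm]
    rw [e, mul_sub, sub_mul, mul_smul_comm, smul_mul_assoc, ih.1, ih.2, ← hf]

theorem vm (A B : SL) : (A * B).1 = A.1 * B.1 := rfl

theorem vp (A : SL) (m : ℕ) : (A ^ m).1 = A.1 ^ m := Matrix.SpecialLinearGroup.coe_pow A m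

theorem exc : S_exc := by
  intro l hl th m
  set S := sinh (l / 2) with hS
  set C := cosh (th / 2) with hC
  set V := cosh ((th + l) / 2) with hV
  have hS0 : 0 < S := sinh_pos_iff.2 (by linarith)
  have hC0 : 0 < C := cosh_pos _
  have hV0 : 0 < V := cosh_pos _
  intro a b G c s
  -- exponentials
  have ea : exp (a / 2) = S / C := by
    show exp (2 * log (S / C) / 2) = _
    rw [mul_div_cancel_left₀ _ (by norm_num : (2 : ℝ) ≠ 0), exp_log (div_pos hS0 hC0)]
  have ea' : exp (-a / 2) = C / S := by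
    rw [neg_div, exp_neg, ea, inv_div]
  have eb : exp (b / 2) = V / S := by
    show exp (2 * log (V / S) / 2) = _
    rw [mul_div_cancel_left₀ _ (by norm_num : (2 : ℝ) ≠ 0), exp_log (div_pos hV0 hS0)]
  have eb' : exp (-b / 2) = S / V := by
    rw [neg_div, exp_neg, eb, inv_div]
  obtain ⟨γ, hγ⟩ : ∃ γ, γ = exp ((a + b) / 4) := ⟨_, rfl⟩
  obtain ⟨γ', hγ'⟩ : ∃ γ', γ' = exp (-(a + b) / 4) := ⟨_, rfl⟩
  have g1 : γ * γ' = 1 := by rw [hγ, hγ', ← exp_add]; ring_nf; exact exp_zero
  have g2 : γ * γ = V / C := by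
    have : γ * γ = exp (a / 2) * exp (b / 2) := by rw [hγ, ← exp_add, ← exp_add]; ring_nf
    rw [this, ea, eb]; field_simp
  have g3 : γ' * γ' = C / V := by
    have : γ' * γ' = exp (-a / 2) * exp (-b / 2) := by rw [hγ', ← exp_add, ← exp_add]; ring_nf
    rw [this, ea', eb']; field_simp
  have hG : G.1 = !![γ, 0; 0, γ'] := by
    show !![exp (-(-(a + b) / 2) / 2), 0; 0, exp (-(a + b) / 2 / 2)] = _
    rw [hγ, hγ']
    congr 3 <;> ring_nf
  have sfa : (step false a).1 = !![C / S, 0; C / S, S / C] := by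
    show !![(1 : ℝ), 0; 1, 1] * !![exp (-a / 2), 0; 0, exp (a / 2)] = _
    rw [ea, ea']; ext i j; fin_cases i <;> fin_cases j <;> simp [Matrix.mul_apply, Fin.sum_univ_two]
  have sta : (step true a).1 = !![C / S, S / C; 0, S / C] := by
    show !![(1 : ℝ), 1; 0, 1] * !![exp (-a / 2), 0; 0, exp (a / 2)] = _
    rw [ea, ea']; ext i j; fin_cases i <;> fin_cases j <;> simp [Matrix.mul_apply, Fin.sum_univ_two]
  have sfb : (step false b).1 = !![S / V, 0; S / V, V / S] := by
    show !![(1 : ℝ), 0; 1, 1] * !![exp (-b / 2), 0; 0, exp (b / 2)] = _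
    rw [eb, eb']; ext i j; fin_cases i <;> fin_cases j <;> simp [Matrix.mul_apply, Fin.sum_univ_two]
  have stb : (step true b).1 = !![S / V, V / S; 0, V / S] := by
    show !![(1 : ℝ), 1; 0, 1] * !![exp (-b / 2), 0; 0, exp (b / 2)] = _
    rw [eb, eb']; ext i j; fin_cases i <;> fin_cases j <;> simp [Matrix.mul_apply, Fin.sum_univ_two]
  have uf : (U false).1 = !![(1 : ℝ), 0; 1, 1] := rfl
  have ut : (U true).1 = !![(1 : ℝ), 1; 0, 1] := rfl
  -- the trace
  obtain ⟨t, ht⟩ : ∃ t, t = (C ^ 2 + S ^ 2 + V ^ 2) / (C * V) := ⟨_, rfl⟩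
  have htc : 2 * cosh (l / 2) = t := by
    rw [ht, eq_div_iff (mul_pos hC0 hV0).ne']
    have e1 : V = C * cosh (l / 2) + sinh (th / 2) * S := by
      rw [hV, hC, hS, ← cosh_add]; congr 1; ring
    have e2 : sinh (th / 2) ^ 2 = C ^ 2 - 1 := by rw [hC, cosh_sq]; ring
    have e3 : cosh (l / 2) ^ 2 = S ^ 2 + 1 := by rw [hS]; exact cosh_sq _
    have e4 : (V - C * cosh (l / 2)) ^ 2 = (C ^ 2 - 1) * S ^ 2 := by rw [e1, ← e2]; ring
    linear_combination (-1 : ℝ) * e4 + C ^ 2 * e3
  -- recursions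
  have cc : ∀ j : ℝ, c (j + 1) + c (j - 1) = t * c j := by
    intro j
    show cosh ((th + (j + 1) * l) / 2) / S + cosh ((th + (j - 1) * l) / 2) / S = t * (cosh ((th + j * l) / 2) / S)
    rw [← htc, show (th + (j + 1) * l) / 2 = (th + j * l) / 2 + l / 2 by ring,
      show (th + (j - 1) * l) / 2 = (th + j * l) / 2 - l / 2 by ring, cosh_add, cosh_sub]
    ring
  have ss : ∀ j : ℝ, s (j + 1) + s (j - 1) = t * s j := by
    intro j
    show sinh ((j + 1) * l / 2) / S + sinh ((j - 1) * l / 2) / S = t * (sinh (j * l / 2) / S)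
    rw [← htc, show (j + 1) * l / 2 = j * l / 2 + l / 2 by ring,
      show (j - 1) * l / 2 = j * l / 2 - l / 2 by ring, sinh_add, sinh_sub]
    ring
  have c0 : c 0 = C / S := by
    show cosh ((th + 0 * l) / 2) / S = _
    rw [zero_mul, add_zero]
  have c1 : c 1 = V / S := by
    show cosh ((th + 1 * l) / 2) / S = _
    rw [one_mul]
  have s0 : s 0 = 0 := by
    show sinh (0 * l / 2) / S = _
    rw [zero_mul, zero_div, sinh_zero, zero_div]
  have s1 : s 1 = 1 := by
    show sinh (1 * l / 2) / S = _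
    rw [one_mul]; exact div_self hS0.ne'
  have c2 : c 2 = t * (V / S) - C / S := by
    have := cc 1; rw [c1] at this; norm_num at this; rw [c0] at this; linarith
  have c3 : c 3 = t * (t * (V / S) - C / S) - V / S := by
    have := cc 2; rw [c2] at this; norm_num at this; rw [c1] at this; linarith
  have cm1 : c (-1) = t * (C / S) - V / S := by
    have := cc 0; rw [c0] at this; norm_num at this; rw [c1] at this; linarith
  have cm2 : c (-2) = t * (t * (C / S) - V / S) - C / S := by
    have := cc (-1); rw [cm1] at this; norm_num at this; rw [c0] at this; linarith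
  have s2 : s 2 = t := by
    have := ss 1; rw [s1] at this; norm_num at this; rw [s0] at this; linarith
  have s3 : s 3 = t * t - 1 := by
    have := ss 2; rw [s2] at this; norm_num at this; rw [s1] at this; linarith
  have hP1 : (step false b * step true a).1 * (step false b * step true a).1 =
      t • (step false b * step true a).1 - 1 := by
    show ((step false b).1 * (step true a).1) * ((step false b).1 * (step true a).1) =
      t • ((step false b).1 * (step true a).1) - 1
    rw [sfb, sta, ht]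
    ext i j
    fin_cases i <;> fin_cases j <;> simp [Matrix.mul_apply, Fin.sum_univ_two] <;> field_simp <;> ring
  have hP2 : (step true a * step false b).1 * (step true a * step false b).1 =
      t • (step true a * step false b).1 - 1 := by
    show ((step true a).1 * (step false b).1) * ((step true a).1 * (step false b).1) =
      t • ((step true a).1 * (step false b).1) - 1
    rw [sfb, sta, ht]
    ext i j
    fin_cases i <;> fin_cases j <;> simp [Matrix.mul_apply, Fin.sum_univ_two] <;> field_simp <;> ring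
  have hS1 := hS0.ne'
  have hC1 := hC0.ne'
  have hV1 := hV0.ne'
  have hGM : ∀ M : Matrix (Fin 2) (Fin 2) ℝ, G.1 * M * G.1 = !![V / C * M 0 0, M 0 1; M 1 0, C / V * M 1 1] := by
    have key : ∀ p q r w : ℝ, !![γ, 0; 0, γ'] * !![p, q; r, w] * !![γ, 0; 0, γ'] =
        !![V / C * p, q; r, C / V * w] := by
      intro p q r w
      ext i j
      fin_cases i <;> fin_cases j <;> simp [Matrix.mul_apply, Fin.sum_univ_two]
      · linear_combination p * g2
      · linear_combination q * g1
      · linear_combination r * g1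
      · linear_combination w * g3
    intro M
    rw [hG]
    conv_lhs => rw [Matrix.eta_fin_two M]
    exact key _ _ _ _
  -- recursions in the form needed
  have rcm : ∀ (x : ℝ) (m : ℕ), c (x - ((m + 2 : ℕ) : ℝ)) = t * c (x - ((m + 1 : ℕ) : ℝ)) - c (x - m) := by
    intro x m
    have := cc (x - m - 1)
    rw [show x - (m : ℝ) - 1 + 1 = x - m by ring, show x - (m : ℝ) - 1 - 1 = x - (m + 2) by ring,
      show x - (m : ℝ) - 1 = x - (m + 1) by ring] at this
    push_cast
    linarith
  have rcp : ∀ (x : ℝ) (m : ℕ), c (((m + 2 : ℕ) : ℝ) + x) = t * c (((m + 1 : ℕ) : ℝ) + x) - c (m + x) := by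
    intro x m
    have := cc (m + x + 1)
    rw [show (m : ℝ) + x + 1 + 1 = m + 2 + x by ring, show (m : ℝ) + x + 1 - 1 = m + x by ring,
      show (m : ℝ) + x + 1 = m + 1 + x by ring] at this
    push_cast
    linarith
  have rsp : ∀ (x : ℝ) (m : ℕ), s (((m + 2 : ℕ) : ℝ) + x) = t * s (((m + 1 : ℕ) : ℝ) + x) - s (m + x) := by
    intro x m
    have := ss (m + x + 1)
    rw [show (m : ℝ) + x + 1 + 1 = m + 2 + x by ring, show (m : ℝ) + x + 1 - 1 = m + x by ring,
      show (m : ℝ) + x + 1 = m + 1 + x by ring] at this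
    push_cast
    linarith
  have F1 := lin_rec ((step false b).1 * (step true a).1) (step false a).1 (U true).1 t hP1
    (fun m => !![C / V * c (1 - m), c (0 - m); c (0 - m), V / C * c (-1 - m)])
    (by
      intro m
      show !![C / V * c (1 - ((m + 2 : ℕ) : ℝ)), c (0 - ((m + 2 : ℕ) : ℝ)); c (0 - ((m + 2 : ℕ) : ℝ)),
        V / C * c (-1 - ((m + 2 : ℕ) : ℝ))] = t • !![C / V * c (1 - ((m + 1 : ℕ) : ℝ)), c (0 - ((m + 1 : ℕ) : ℝ));
          c (0 - ((m + 1 : ℕ) : ℝ)), V / C * c (-1 - ((m + 1 : ℕ) : ℝ))] -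
        !![C / V * c (1 - (m : ℝ)), c (0 - (m : ℝ)); c (0 - (m : ℝ)), V / C * c (-1 - (m : ℝ))]
      rw [rcm, rcm, rcm]
      ext i j
      fin_cases i <;> fin_cases j <;> simp <;> ring)
    (by
      show (step false a).1 * (U true).1 = !![C / V * c (1 - ((0 : ℕ) : ℝ)), c (0 - ((0 : ℕ) : ℝ));
        c (0 - ((0 : ℕ) : ℝ)), V / C * c (-1 - ((0 : ℕ) : ℝ))]
      rw [sfa, ut, Nat.cast_zero, sub_zero, sub_zero, sub_zero, c1, c0, cm1, ht]
      ext i j
      fin_cases i <;> fin_cases j <;> simp [Matrix.mul_apply, Fin.sum_univ_two] <;> field_simp <;> ring)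
    (by
      show (step false a).1 * ((step false b).1 * (step true a).1) * (U true).1 =
        !![C / V * c (1 - ((1 : ℕ) : ℝ)), c (0 - ((1 : ℕ) : ℝ));
        c (0 - ((1 : ℕ) : ℝ)), V / C * c (-1 - ((1 : ℕ) : ℝ))]
      rw [sfa, sfb, sta, ut, Nat.cast_one, sub_self, zero_sub, show (-1 : ℝ) - 1 = -2 by norm_num, c0, cm1, cm2, ht]
      ext i j
      fin_cases i <;> fin_cases j <;> simp [Matrix.mul_apply, Fin.sum_univ_two] <;> field_simp <;> ring) m
  have F2 := lin_rec ((step false b).1 * (step true a).1) (step false a).1 ((step false b).1 * (U false).1) t hP1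
    (fun m => !![C / V * s (m + 1), s (m + 0); s (m + 2), V / C * s (m + 1)])
    (by
      intro m
      show !![C / V * s (((m + 2 : ℕ) : ℝ) + 1), s (((m + 2 : ℕ) : ℝ) + 0); s (((m + 2 : ℕ) : ℝ) + 2),
        V / C * s (((m + 2 : ℕ) : ℝ) + 1)] = t • !![C / V * s (((m + 1 : ℕ) : ℝ) + 1), s (((m + 1 : ℕ) : ℝ) + 0);
          s (((m + 1 : ℕ) : ℝ) + 2), V / C * s (((m + 1 : ℕ) : ℝ) + 1)] -
        !![C / V * s ((m : ℝ) + 1), s ((m : ℝ) + 0); s ((m : ℝ) + 2), V / C * s ((m : ℝ) + 1)]
      rw [rsp, rsp, rsp]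
      ext i j
      fin_cases i <;> fin_cases j <;> simp <;> ring)
    (by
      show (step false a).1 * ((step false b).1 * (U false).1) = !![C / V * s (((0 : ℕ) : ℝ) + 1), s (((0 : ℕ) : ℝ) + 0);
        s (((0 : ℕ) : ℝ) + 2), V / C * s (((0 : ℕ) : ℝ) + 1)]
      rw [sfa, sfb, uf, Nat.cast_zero, zero_add, zero_add, zero_add, s0, s1, s2, ht]
      ext i j
      fin_cases i <;> fin_cases j <;> simp [Matrix.mul_apply, Fin.sum_univ_two] <;> field_simp <;> ring)
    (by
      show (step false a).1 * ((step false b).1 * (step true a).1) * ((step false b).1 * (U false).1) =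
        !![C / V * s (((1 : ℕ) : ℝ) + 1), s (((1 : ℕ) : ℝ) + 0);
        s (((1 : ℕ) : ℝ) + 2), V / C * s (((1 : ℕ) : ℝ) + 1)]
      rw [sfa, sfb, sta, uf, Nat.cast_one, add_zero, show (1 : ℝ) + 1 = 2 by norm_num,
        show (1 : ℝ) + 2 = 3 by norm_num, s1, s2, s3, ht]
      ext i j
      fin_cases i <;> fin_cases j <;> simp [Matrix.mul_apply, Fin.sum_univ_two] <;> field_simp <;> ring) m
  have F3 := lin_rec ((step true a).1 * (step false b).1) (step true b).1 (U false).1 t hP2
    (fun m => !![C / V * c (m + 2), c (m + 1); c (m + 1), V / C * c (m + 0)])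
    (by
      intro m
      show !![C / V * c (((m + 2 : ℕ) : ℝ) + 2), c (((m + 2 : ℕ) : ℝ) + 1); c (((m + 2 : ℕ) : ℝ) + 1),
        V / C * c (((m + 2 : ℕ) : ℝ) + 0)] = t • !![C / V * c (((m + 1 : ℕ) : ℝ) + 2), c (((m + 1 : ℕ) : ℝ) + 1);
          c (((m + 1 : ℕ) : ℝ) + 1), V / C * c (((m + 1 : ℕ) : ℝ) + 0)] -
        !![C / V * c ((m : ℝ) + 2), c ((m : ℝ) + 1); c ((m : ℝ) + 1), V / C * c ((m : ℝ) + 0)]
      rw [rcp, rcp, rcp]
      ext i j
      fin_cases i <;> fin_cases j <;> simp <;> ring)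
    (by
      show (step true b).1 * (U false).1 = !![C / V * c (((0 : ℕ) : ℝ) + 2), c (((0 : ℕ) : ℝ) + 1);
        c (((0 : ℕ) : ℝ) + 1), V / C * c (((0 : ℕ) : ℝ) + 0)]
      rw [stb, uf, Nat.cast_zero, zero_add, zero_add, zero_add, c0, c1, c2, ht]
      ext i j
      fin_cases i <;> fin_cases j <;> simp [Matrix.mul_apply, Fin.sum_univ_two] <;> field_simp <;> ring)
    (by
      show (step true b).1 * ((step true a).1 * (step false b).1) * (U false).1 =
        !![C / V * c (((1 : ℕ) : ℝ) + 2), c (((1 : ℕ) : ℝ) + 1);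
        c (((1 : ℕ) : ℝ) + 1), V / C * c (((1 : ℕ) : ℝ) + 0)]
      rw [stb, sfb, sta, uf, Nat.cast_one, add_zero, show (1 : ℝ) + 1 = 2 by norm_num,
        show (1 : ℝ) + 2 = 3 by norm_num, c1, c2, c3, ht]
      ext i j
      fin_cases i <;> fin_cases j <;> simp [Matrix.mul_apply, Fin.sum_univ_two] <;> field_simp <;> ring) m
  have F4 := lin_rec ((step true a).1 * (step false b).1) (step true b).1 ((step true a).1 * (U true).1) t hP2
    (fun m => !![C / V * s (m + 1), s (m + 2); s (m + 0), V / C * s (m + 1)])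
    (by
      intro m
      show !![C / V * s (((m + 2 : ℕ) : ℝ) + 1), s (((m + 2 : ℕ) : ℝ) + 2); s (((m + 2 : ℕ) : ℝ) + 0),
        V / C * s (((m + 2 : ℕ) : ℝ) + 1)] = t • !![C / V * s (((m + 1 : ℕ) : ℝ) + 1), s (((m + 1 : ℕ) : ℝ) + 2);
          s (((m + 1 : ℕ) : ℝ) + 0), V / C * s (((m + 1 : ℕ) : ℝ) + 1)] -
        !![C / V * s ((m : ℝ) + 1), s ((m : ℝ) + 2); s ((m : ℝ) + 0), V / C * s ((m : ℝ) + 1)]
      rw [rsp, rsp, rsp]
      ext i j
      fin_cases i <;> fin_cases j <;> simp <;> ring)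
    (by
      show (step true b).1 * ((step true a).1 * (U true).1) = !![C / V * s (((0 : ℕ) : ℝ) + 1), s (((0 : ℕ) : ℝ) + 2);
        s (((0 : ℕ) : ℝ) + 0), V / C * s (((0 : ℕ) : ℝ) + 1)]
      rw [stb, sta, ut, Nat.cast_zero, zero_add, zero_add, zero_add, s0, s1, s2, ht]
      ext i j
      fin_cases i <;> fin_cases j <;> simp [Matrix.mul_apply, Fin.sum_univ_two] <;> field_simp <;> ring)
    (by
      show (step true b).1 * ((step true a).1 * (step false b).1) * ((step true a).1 * (U true).1) =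
        !![C / V * s (((1 : ℕ) : ℝ) + 1), s (((1 : ℕ) : ℝ) + 2);
        s (((1 : ℕ) : ℝ) + 0), V / C * s (((1 : ℕ) : ℝ) + 1)]
      rw [stb, sfb, sta, ut, Nat.cast_one, add_zero, show (1 : ℝ) + 1 = 2 by norm_num,
        show (1 : ℝ) + 2 = 3 by norm_num, s1, s2, s3, ht]
      ext i j
      fin_cases i <;> fin_cases j <;> simp [Matrix.mul_apply, Fin.sum_univ_two] <;> field_simp <;> ring) m
  have x1 : ∀ z : ℝ, V / C * (C / V * z) = z := fun z => by field_simp
  have x2 : ∀ z : ℝ, C / V * (V / C * z) = z := fun z => by field_simp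
  refine ⟨?_, ?_, ?_, ?_⟩
  · have e : (G * step false a * (step false b * step true a) ^ m * U true * G).1 =
        G.1 * ((step false a).1 * ((step false b).1 * (step true a).1) ^ m * (U true).1) * G.1 := by
      simp only [vm, vp, Matrix.mul_assoc]
    rw [e, F1, hGM]
    show !![V / C * (C / V * c (1 - (m : ℝ))), c (0 - (m : ℝ)); c (0 - (m : ℝ)), C / V * (V / C * c (-1 - (m : ℝ)))] = _
    rw [x1, x2, zero_sub, show (-1 : ℝ) - m = -m - 1 by ring]
  · have e : (G * step false a * (step false b * step true a) ^ m * step false b * U false * G).1 =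
        G.1 * ((step false a).1 * ((step false b).1 * (step true a).1) ^ m * ((step false b).1 * (U false).1)) * G.1 := by
      simp only [vm, vp, Matrix.mul_assoc]
    rw [e, F2, hGM]
    show !![V / C * (C / V * s ((m : ℝ) + 1)), s ((m : ℝ) + 0); s ((m : ℝ) + 2), C / V * (V / C * s ((m : ℝ) + 1))] = _
    rw [x1, x2, add_zero]
  · have e : (G * step true b * (step true a * step false b) ^ m * U false * G).1 =
        G.1 * ((step true b).1 * ((step true a).1 * (step false b).1) ^ m * (U false).1) * G.1 := by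
      simp only [vm, vp, Matrix.mul_assoc]
    rw [e, F3, hGM]
    show !![V / C * (C / V * c ((m : ℝ) + 2)), c ((m : ℝ) + 1); c ((m : ℝ) + 1), C / V * (V / C * c ((m : ℝ) + 0))] = _
    rw [x1, x2, add_zero]
  · have e : (G * step true b * (step true a * step false b) ^ m * step true a * U true * G).1 =
        G.1 * ((step true b).1 * ((step true a).1 * (step false b).1) ^ m * ((step true a).1 * (U true).1)) * G.1 := by
      simp only [vm, vp, Matrix.mul_assoc]
    rw [e, F4, hGM]
    show !![V / C * (C / V * s ((m : ℝ) + 1)), s ((m : ℝ) + 2); s ((m : ℝ) + 0), C / V * (V / C * s ((m : ℝ) + 1))] = _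
    rw [x1, x2, add_zero]

end Run7.h24.DG
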