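import Pool.Agent.Run7.h745.PC_Defs

/-! # PC, piece A (helper24): from a unitary equivalence to a bijection of the spaces and a unitary matrix of functions -/

namespace Pool.Agent.Run7.h24.PC

open scoped BigOperators
open Pool.Agent.Run7.h745.PC

theorem exists_perm {n : ℕ} (M : Matrix (Fin n) (Fin n) ℂ) (hM : M.conjTranspose * M = 1) :
    ∃ p : Equiv.Perm (Fin n), ∀ i, M i (p i) ≠ 0 := by
  have hdet : M.det ≠ 0 := by
    intro h
    have := congrArg Matrix.det hM
    rw [Matrix.det_mul, h, mul_zero, Matrix.det_one] at this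
    exact zero_ne_one this
  rw [Matrix.det_apply] at hdet
  obtain ⟨σ, _, hσ⟩ := Finset.exists_ne_zero_of_sum_ne_zero hdet
  have h2 : ∏ i, M (σ i) i ≠ 0 := by
    intro h; rw [h, smul_zero] at hσ; exact hσ rfl
  refine ⟨σ⁻¹, fun i => ?_⟩
  have h3 := Finset.prod_ne_zero_iff.1 h2 (σ⁻¹ i) (Finset.mem_univ _)
  simpa using h3

/-- every character of `C(X, ℂ)` is the evaluation at a point -/
theorem char_eval {X : Type} [TopologicalSpace X] [CompactSpace X] [T2Space X] (φ : C(X, ℂ) →ₐ[ℂ] ℂ) :
    ∃ x, ∀ f, φ f = f x := by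
  obtain ⟨x, hx⟩ := (WeakDual.CharacterSpace.continuousMapEval_bijective (X := X) (𝕜 := ℂ)).2
    (WeakDual.CharacterSpace.equivAlgHom.symm φ)
  refine ⟨x, fun f => ?_⟩
  have := congrArg (fun c : WeakDual.characterSpace ℂ C(X, ℂ) => c f) hx
  simp only [WeakDual.CharacterSpace.continuousMapEval_apply_apply] at this
  rw [this]
  rfl

theorem eval_inj {X : Type} [TopologicalSpace X] [CompactSpace X] [T2Space X] {x x' : X}
    (h : ∀ f : C(X, ℂ), f x = f x') : x = x' := by
  apply (WeakDual.CharacterSpace.continuousMapEval_bijective (X := X) (𝕜 := ℂ)).1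
  ext f
  exact h f

theorem ip_self_eq_zero {Y : Type} [TopologicalSpace Y] {n : ℕ} (D : Fin n → C(Y, ℂ)) (h : ip D D = 0) :
    D = 0 := by
  funext i
  ext y
  have h1 := congrArg (fun f : C(Y, ℂ) => f y) h
  simp only [ip, ContinuousMap.coe_sum, Finset.sum_apply, ContinuousMap.coe_mul, Pi.mul_apply,
    ContinuousMap.star_apply, ContinuousMap.coe_zero, Pi.zero_apply] at h1
  have h2 : ∀ i, star (D i y) * D i y = ((Complex.normSq (D i y) : ℝ) : ℂ) := by
    intro i
    exact (Complex.normSq_eq_conj_mul_self).symm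
  simp only [h2] at h1
  have h3 : ∑ i, Complex.normSq (D i y) = 0 := by exact_mod_cast h1
  have h4 := (Finset.sum_eq_zero_iff_of_nonneg (fun i _ => Complex.normSq_nonneg _)).1 h3 i (Finset.mem_univ _)
  exact Complex.normSq_eq_zero.1 h4

theorem exists_unitary {X Y : Type} [TopologicalSpace X] [CompactSpace X] [T2Space X]
    [TopologicalSpace Y] [CompactSpace Y] [T2Space Y] {n : ℕ} {σ : Fin n → C(X, X)}
    {τ : Fin n → C(Y, Y)} (h : UnitarilyEquivalent σ τ) :
    ∃ (δ : Y ≃ X) (u : Fin n → Fin n → C(Y, ℂ)),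
      (∀ y, (Matrix.of fun i j => u i j y).conjTranspose * (Matrix.of fun i j => u i j y) = 1) ∧
      ∀ i j y, u i j y ≠ 0 → σ j (δ y) = δ (τ i y) := by
  obtain ⟨ρ, U, hU, hip, hact⟩ := h
  -- the bijection
  have h1 : ∀ y : Y, ∃ x : X, ∀ f : C(X, ℂ), ρ f y = f x := by
    intro y
    obtain ⟨x, hx⟩ := char_eval ((ContinuousMap.evalAlgHom ℂ ℂ y).comp
      (ρ : C(X, ℂ) ≃⋆ₐ[ℂ] C(Y, ℂ)).toAlgEquiv.toAlgHom)
    exact ⟨x, fun f => hx f⟩
  have h2 : ∀ x : X, ∃ y : Y, ∀ g : C(Y, ℂ), ρ.symm g x = g y := by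
    intro x
    obtain ⟨y, hy⟩ := char_eval ((ContinuousMap.evalAlgHom ℂ ℂ x).comp
      (ρ.symm : C(Y, ℂ) ≃⋆ₐ[ℂ] C(X, ℂ)).toAlgEquiv.toAlgHom)
    exact ⟨y, fun f => hy f⟩
  choose d hd using h1
  choose d' hd' using h2
  let δ : Y ≃ X := ⟨d, d', fun y => by
      apply eval_inj
      intro f
      rw [← hd', ← hd, StarAlgEquiv.apply_symm_apply], fun x => by
      apply eval_inj
      intro f
      rw [← hd, ← hd', StarAlgEquiv.symm_apply_apply]⟩
  -- right linearity
  have hr : ∀ (ξ : Fin n → C(X, ℂ)) (a : C(X, ℂ)), U (fun i => ξ i * a) = fun i => U ξ i * ρ a := by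
    intro ξ a
    have key : ∀ η, ip (U (fun i => ξ i * a) - fun i => U ξ i * ρ a) (U η) = 0 := by
      intro η
      have e1 : ip (U (fun i => ξ i * a) - fun i => U ξ i * ρ a) (U η) =
          ip (U (fun i => ξ i * a)) (U η) - star (ρ a) * ip (U ξ) (U η) := by
        unfold ip
        rw [Finset.mul_sum, ← Finset.sum_sub_distrib]
        refine Finset.sum_congr rfl fun i _ => ?_
        rw [Pi.sub_apply, star_sub, star_mul]
        ring
      have e2 : ip (fun i => ξ i * a) η = star a * ip ξ η := by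
        unfold ip
        rw [Finset.mul_sum]
        refine Finset.sum_congr rfl fun i _ => ?_
        rw [star_mul]
        ring
      rw [e1, hip, hip, e2, map_mul, map_star, sub_self]
    obtain ⟨η, hη⟩ := hU (U (fun i => ξ i * a) - fun i => U ξ i * ρ a)
    have h3 := key η
    rw [hη] at h3
    exact sub_eq_zero.1 (ip_self_eq_zero _ h3)
  classical
  refine ⟨δ, fun i j => U (Pi.single j 1) i, ?_, ?_⟩
  · intro y
    ext j k
    rw [Matrix.mul_apply]
    have h3 := congrArg (fun f : C(Y, ℂ) => f y) (hip (Pi.single j 1) (Pi.single k 1))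
    have h4 : ip (Pi.single j (1 : C(X, ℂ))) (Pi.single k 1) = if j = k then 1 else 0 := by
      unfold ip
      rw [Finset.sum_eq_single j]
      · rw [Pi.single_eq_same, star_one, one_mul]
        by_cases hjk : j = k
        · subst hjk; rw [Pi.single_eq_same, if_pos rfl]
        · rw [Pi.single_eq_of_ne hjk, if_neg hjk]
      · intro i _ hi
        rw [Pi.single_eq_of_ne hi, star_zero, zero_mul]
      · intro h5; exact absurd (Finset.mem_univ _) h5
    rw [h4] at h3
    simp only [ip, ContinuousMap.coe_sum, Finset.sum_apply, ContinuousMap.coe_mul, Pi.mul_apply,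
      ContinuousMap.star_apply] at h3
    simp only [Matrix.conjTranspose_apply, Matrix.of_apply]
    rw [h3, Matrix.one_apply]
    split_ifs
    · rw [map_one]; rfl
    · rw [map_zero]; rfl
  · intro i j y hne
    apply eval_inj
    intro a
    have e1 : act σ a (Pi.single j (1 : C(X, ℂ))) = fun i => (Pi.single j (1 : C(X, ℂ)) : Fin n → C(X, ℂ)) i * a.comp (σ j) := by
      funext i
      unfold act
      by_cases hij : i = j
      · subst hij; ring
      · rw [Pi.single_eq_of_ne hij, mul_zero, zero_mul]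
    have h3 := hact a (Pi.single j 1)
    rw [e1, hr] at h3
    have h4 := congrArg (fun f : Fin n → C(Y, ℂ) => f i y) h3
    simp only [act, ContinuousMap.coe_mul, Pi.mul_apply, ContinuousMap.comp_apply] at h4
    rw [hd, hd, ContinuousMap.comp_apply, mul_comm] at h4
    exact mul_right_cancel₀ hne h4

end Pool.Agent.Run7.h24.PC
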