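import Pool.Agent.Run7.h745.PC_Defs

/-! # PC, piece B (helper24): rigidity of the example -/

namespace Pool.Agent.Run7.h24.PC

open Pool.Agent.Run7.h745.PC

abbrev iW (w : WW) : XX := Sum.inr (Sum.inl w)
abbrev iI (x : II) : XX := Sum.inr (Sum.inr x)

theorem cl_val (t : ℝ) (h0 : 0 ≤ t) (h1 : t ≤ 1) : (cl t : II).1 = t := by
  unfold cl
  rw [Set.projIcc_of_mem zero_le_one ⟨h0, h1⟩]

theorem fI_val (x : II) : (fI x).1 = x.1 / 2 := by
  unfold fI
  exact cl_val _ (by have := x.2.1; linarith) (by have := x.2.2; linarith)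

theorem gI_val (x : II) : (gI x).1 = (x.1 + 1) / 2 := by
  unfold gI
  exact cl_val _ (by have := x.2.1; linarith) (by have := x.2.2; linarith)

theorem fI_ne_gI (x : II) : fI x ≠ gI x := by
  intro h
  have h2 := congrArg Subtype.val h
  rw [fI_val, gI_val] at h2
  linarith

theorem tau_I (i : Fin 4) (x : II) : tau i (iI x) = if i = 3 then iI (gI x) else iI (fI x) := rfl
theorem sig_I (i : Fin 4) (x : II) : sig i (iI x) = if i = 3 then iI (gI x) else iI (fI x) := rfl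
theorem tau_W (i : Fin 4) (w : WW) : tau i (iW w) = if i = 0 ∨ i = 1 then iI (fW w) else iW (gW w) := rfl
theorem sig_W (i : Fin 4) (w : WW) : sig i (iW w) = if i = 0 ∨ i = 1 then iI (fW w) else iW (gW w) := rfl
theorem tau_Z (i : Fin 4) (z : ZZ) : tau i (Sum.inl z) = iW (tZ i z) := rfl
theorem sig_Z (i : Fin 4) (z : ZZ) : sig i (Sum.inl z) = iW (sZ i z) := rfl

theorem sig_inr (i : Fin 4) (x : XX) : ∃ v, sig i x = Sum.inr v := by
  rcases x with z | w | x
  · exact ⟨_, rfl⟩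
  · rw [show (Sum.inr (Sum.inl w) : XX) = iW w from rfl, sig_W]
    split_ifs
    · exact ⟨_, rfl⟩
    · exact ⟨_, rfl⟩
  · rw [show (Sum.inr (Sum.inr x) : XX) = iI x from rfl, sig_I]
    split_ifs
    · exact ⟨_, rfl⟩
    · exact ⟨_, rfl⟩

theorem tau_inr (i : Fin 4) (x : XX) : ∃ v, tau i x = Sum.inr v := by
  rcases x with z | w | x
  · exact ⟨_, rfl⟩
  · rw [show (Sum.inr (Sum.inl w) : XX) = iW w from rfl, tau_W]
    split_ifs
    · exact ⟨_, rfl⟩
    · exact ⟨_, rfl⟩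
  · rw [show (Sum.inr (Sum.inr x) : XX) = iI x from rfl, tau_I]
    split_ifs
    · exact ⟨_, rfl⟩
    · exact ⟨_, rfl⟩

theorem tau_surj (v : WW ⊕ II) : ∃ i x, tau i x = Sum.inr v := by
  rcases v with w | x
  · refine ⟨2, iW (fun n => if n = 0 then ⟨0, by simp⟩ else w (n - 1)), ?_⟩
    rw [tau_W, if_neg (by decide)]
    congr 2
  · refine ⟨0, iW (fun _ => x), ?_⟩
    rw [tau_W, if_pos (by decide)]
    rfl

theorem sig_surj (v : WW ⊕ II) : ∃ i x, sig i x = Sum.inr v := by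
  rcases v with w | x
  · refine ⟨2, iW (fun n => if n = 0 then ⟨0, by simp⟩ else w (n - 1)), ?_⟩
    rw [sig_W, if_neg (by decide)]
    congr 2
  · refine ⟨0, iW (fun _ => x), ?_⟩
    rw [sig_W, if_pos (by decide)]
    rfl

section main

variable (δ : XX ≃ XX) (h : ∀ y, ∃ p : P4, ∀ i, sig (p i) (δ y) = δ (tau i y))

include h

theorem step1 (v : WW ⊕ II) : ∃ v', δ (Sum.inr v) = Sum.inr v' := by
  obtain ⟨i, x, hx⟩ := tau_surj v
  obtain ⟨p, hp⟩ := h x
  rw [← hx, ← hp i]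
  exact sig_inr _ _

theorem step1' (z : ZZ) : ∃ z', δ (Sum.inl z) = Sum.inl z' := by
  rcases hd : δ (Sum.inl z) with z' | v
  · exact ⟨z', rfl⟩
  · exfalso
    obtain ⟨j, x', hx'⟩ := sig_surj v
    obtain ⟨p, hp⟩ := h (δ.symm x')
    have h1 := hp (p.symm j)
    rw [Equiv.apply_symm_apply, Equiv.apply_symm_apply, hx', ← hd] at h1
    have h2 := δ.injective h1
    obtain ⟨v', hv'⟩ := tau_inr (p.symm j) (δ.symm x')
    rw [hv'] at h2
    cases h2

theorem step2I (x : II) : ∃ x', δ (iI x) = iI x' := by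
  obtain ⟨v, hv⟩ := step1 δ h (Sum.inr x)
  rcases v with w | x'
  · exfalso
    obtain ⟨p, hp⟩ := h (iI x)
    have e : δ (iI x) = iW w := hv
    rw [e] at hp
    simp only [tau_I, sig_W] at hp
    have key : ∀ p : P4, ∃ i j : Fin 4, i ≠ 3 ∧ j ≠ 3 ∧ (p i = 0 ∨ p i = 1) ∧ ¬ (p j = 0 ∨ p j = 1) := by decide
    obtain ⟨i, j, hi, hj, hpi, hpj⟩ := key p
    have h1 := hp i
    have h2 := hp j
    rw [if_pos hpi, if_neg hi] at h1
    rw [if_neg hpj, if_neg hj] at h2
    have h3 := h1.trans h2.symm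
    cases h3
  · exact ⟨x', hv⟩

theorem step2W (w : WW) : ∃ w', δ (iW w) = iW w' := by
  obtain ⟨v, hv⟩ := step1 δ h (Sum.inl w)
  rcases v with w' | x
  · exact ⟨w', hv⟩
  · exfalso
    obtain ⟨p, hp⟩ := h (iW w)
    have e : δ (iW w) = iI x := hv
    rw [e] at hp
    simp only [tau_W, sig_I] at hp
    have key : ∀ p : P4, ∃ i j : Fin 4, p i = 3 ∧ p j ≠ 3 ∧ ((i = 0 ∨ i = 1) ↔ (j = 0 ∨ j = 1)) := by decide
    obtain ⟨i, j, hi, hj, hij⟩ := key p
    have h1 := hp i
    have h2 := hp j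
    rw [if_pos hi] at h1
    rw [if_neg hj] at h2
    have h3 : (iI (gI x) : XX) = iI (fI x) := by
      rw [h1, h2]
      by_cases h4 : i = 0 ∨ i = 1
      · rw [if_pos h4, if_pos (hij.1 h4)]
      · rw [if_neg h4, if_neg (fun h5 => h4 (hij.2 h5))]
    exact fI_ne_gI x (Sum.inr_injective (Sum.inr_injective h3)).symm

theorem step3a (x x' : II) (hx : δ (iI x) = iI x') : δ (iI (fI x)) = iI (fI x') ∧ δ (iI (gI x)) = iI (gI x') := by
  obtain ⟨p, hp⟩ := h (iI x)
  rw [hx] at hp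
  simp only [tau_I, sig_I] at hp
  have hp3 : p 3 = 3 := by
    by_contra hne
    have key : ∀ p : P4, p 3 ≠ 3 → ∃ i j : Fin 4, i ≠ 3 ∧ j ≠ 3 ∧ p i = 3 ∧ p j ≠ 3 := by decide
    obtain ⟨i, j, hi, hj, hpi, hpj⟩ := key p hne
    have h1 := hp i
    have h2 := hp j
    rw [if_pos hpi, if_neg hi] at h1
    rw [if_neg hpj, if_neg hj] at h2
    have h3 := h1.trans h2.symm
    exact fI_ne_gI x' (Sum.inr_injective (Sum.inr_injective h3)).symm
  have hp0 : p 0 ≠ 3 := by
    intro h0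
    have := p.injective (h0.trans hp3.symm)
    exact absurd this (by decide)
  have h0 := hp 0
  have h3 := hp 3
  rw [if_neg hp0, if_neg (by decide)] at h0
  rw [if_pos hp3, if_pos rfl] at h3
  exact ⟨h0.symm, h3.symm⟩

theorem step3b (n : ℕ) : ∀ x x' : II, δ (iI x) = iI x' → |x'.1 - x.1| ≤ (1 / 2 : ℝ) ^ n := by
  induction n with
  | zero =>
    intro x x' _
    rw [pow_zero, abs_le]
    have h1 := x.2.1
    have h2 := x.2.2
    have h3 := x'.2.1
    have h4 := x'.2.2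
    constructor <;> linarith
  | succ n ih =>
    intro x x' hx
    by_cases hle : x.1 ≤ 1 / 2
    · set y : II := ⟨2 * x.1, by constructor <;> [have := x.2.1; skip] <;> linarith⟩ with hy
      have e : fI y = x := by
        apply Subtype.ext
        rw [fI_val]
        show 2 * x.1 / 2 = x.1
        ring
      obtain ⟨y', hy'⟩ := step2I δ h y
      have h1 := (step3a δ h y y' hy').1
      rw [e, hx] at h1
      have h2 : x' = fI y' := Sum.inr_injective (Sum.inr_injective h1)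
      have h3 := ih y y' hy'
      rw [h2, fI_val, pow_succ]
      have h4 : y'.1 / 2 - x.1 = (y'.1 - y.1) * (1 / 2) := by
        rw [hy]; ring
      rw [h4, abs_mul, abs_of_pos (by norm_num : (0 : ℝ) < 1 / 2)]
      exact mul_le_mul_of_nonneg_right h3 (by norm_num)
    · set y : II := ⟨2 * x.1 - 1, by constructor <;> [skip; have := x.2.2] <;> linarith⟩ with hy
      have e : gI y = x := by
        apply Subtype.ext
        rw [gI_val]
        show (2 * x.1 - 1 + 1) / 2 = x.1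
        ring
      obtain ⟨y', hy'⟩ := step2I δ h y
      have h1 := (step3a δ h y y' hy').2
      rw [e, hx] at h1
      have h2 : x' = gI y' := Sum.inr_injective (Sum.inr_injective h1)
      have h3 := ih y y' hy'
      rw [h2, gI_val, pow_succ]
      have h4 : (y'.1 + 1) / 2 - x.1 = (y'.1 - y.1) * (1 / 2) := by
        rw [hy]; ring
      rw [h4, abs_mul, abs_of_pos (by norm_num : (0 : ℝ) < 1 / 2)]
      exact mul_le_mul_of_nonneg_right h3 (by norm_num)

theorem step3 (x : II) : δ (iI x) = iI x := by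
  obtain ⟨x', hx'⟩ := step2I δ h x
  have h1 : ∀ n : ℕ, |x'.1 - x.1| ≤ (1 / 2 : ℝ) ^ n := fun n => step3b δ h n x x' hx'
  have h2 : |x'.1 - x.1| ≤ 0 :=
    ge_of_tendsto' (tendsto_pow_atTop_nhds_zero_of_lt_one (by norm_num) (by norm_num)) h1
  have h3 : x' = x := by
    apply Subtype.ext
    have := abs_nonpos_iff.1 h2
    linarith
  rw [hx', h3]

theorem step4a (w w' : WW) (hw : δ (iW w) = iW w') : fW w' = fW w ∧ δ (iW (gW w)) = iW (gW w') := by
  obtain ⟨p, hp⟩ := h (iW w)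
  rw [hw] at hp
  simp only [tau_W, sig_W] at hp
  constructor
  · have h0 := hp 0
    rw [if_pos (by decide : (0 : Fin 4) = 0 ∨ (0 : Fin 4) = 1), step3 δ h] at h0
    by_cases hp0 : p 0 = 0 ∨ p 0 = 1
    · rw [if_pos hp0] at h0
      exact Sum.inr_injective (Sum.inr_injective h0)
    · rw [if_neg hp0] at h0
      cases h0
  · have h2 := hp 2
    rw [if_neg (by decide : ¬ ((2 : Fin 4) = 0 ∨ (2 : Fin 4) = 1))] at h2
    by_cases hp2 : p 2 = 0 ∨ p 2 = 1
    · rw [if_pos hp2] at h2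
      obtain ⟨w2, hw2⟩ := step2W δ h (gW w)
      rw [hw2] at h2
      cases h2
    · rw [if_neg hp2] at h2
      exact h2.symm

theorem step4b (n : ℕ) : ∀ w w' : WW, δ (iW w) = iW w' → w' n = w n := by
  induction n with
  | zero => intro w w' hw; exact (step4a δ h w w' hw).1
  | succ n ih =>
    intro w w' hw
    exact ih (gW w) (gW w') (step4a δ h w w' hw).2

theorem step4 (w : WW) : δ (iW w) = iW w := by
  obtain ⟨w', hw'⟩ := step2W δ h w
  have h1 : w' = w := funext fun n => step4b δ h n w w' hw'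
  rw [hw', h1]

theorem step5 (z : ZZ) : δ (Sum.inl z) = Sum.inl z := by
  obtain ⟨z', hz'⟩ := step1' δ h z
  obtain ⟨p, hp⟩ := h (Sum.inl z)
  have h0 := hp 0
  rw [hz', tau_Z, sig_Z, step4 δ h] at h0
  have h1 : sZ (p 0) z' = tZ 0 z := Sum.inl_injective (Sum.inr_injective h0)
  have h2 : z' = z := by
    apply Subtype.ext
    funext π
    obtain ⟨n, hn⟩ := enum_surjective (Sum.inr π)
    have h3 := congrArg Subtype.val (congrFun h1 n)
    simp only [sZ, tZ, hn, sval, tval] at h3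
    have b1 : ∀ y : ZZ, 0 ≤ y.1 π ∧ y.1 π ≤ 1 := by
      intro y
      refine ⟨y.2.1 π, ?_⟩
      rw [← y.2.2]
      exact Finset.single_le_sum (f := fun π => y.1 π) (fun i _ => y.2.1 i) (Finset.mem_univ π)
    rwa [cl_val _ (b1 z').1 (b1 z').2, cl_val _ (b1 z).1 (b1 z).2] at h3
  rw [hz', h2]

end main

theorem rigid (δ : XX ≃ XX)
    (h : ∀ y, ∃ p : P4, ∀ i, sig (p i) (δ y) = δ (tau i y)) :
    (∀ w, δ (Sum.inr (Sum.inl w)) = Sum.inr (Sum.inl w)) ∧ ∀ z, δ (Sum.inl z) = Sum.inl z :=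
  ⟨fun w => step4 δ h w, fun z => step5 δ h z⟩

end Pool.Agent.Run7.h24.PC
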