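import Pool.Agent.Run7.h968.TN.Defs

/-! # TN (helper968), pieces gens and min (helper24) -/

set_option autoImplicit false

namespace Pool.Agent.Run7.h24.TN

open Pool.Agent.Run7.h968.TN

theorem t_gens : P_gens := by
  classical
  intro K _ N _ I h F hS
  let t : K ⧸ N → K := fun y => if y = 1 then 1 else Quotient.out y
  have ht : ∀ y, (QuotientGroup.mk (t y) : K ⧸ N) = y := by
    intro y
    by_cases hy : y = 1
    · simp [t, hy]
    · simp only [t, if_neg hy]; exact Quotient.out_eq' y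
  have ht1 : t 1 = 1 := by simp [t]
  let φ : K → K := fun a => (t (QuotientGroup.mk a))⁻¹ * a
  let T : Finset K := F.image (fun p => (t (QuotientGroup.mk (h p.2) * p.1))⁻¹ * h p.2 * t p.1)
  refine ⟨T, ?_, Finset.card_image_le⟩
  apply le_antisymm
  · rw [Subgroup.closure_le]
    intro x hx
    obtain ⟨p, hp, rfl⟩ := Finset.mem_image.1 (Finset.mem_coe.1 hx)
    rw [SetLike.mem_coe, ← QuotientGroup.eq_one_iff]
    rw [QuotientGroup.mk_mul, QuotientGroup.mk_mul, QuotientGroup.mk_inv, ht, ht]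
    group
  · have key : ∀ a b, Relation.EqvGen (adj N h F) a b →
        φ b * (φ a)⁻¹ ∈ Subgroup.closure (T : Set K) := by
      intro a b hab
      induction hab with
      | rel a b hab =>
        obtain ⟨i, hi, rfl⟩ := hab
        apply Subgroup.subset_closure
        refine Finset.mem_coe.2 (Finset.mem_image.2 ⟨_, hi, ?_⟩)
        show (t (QuotientGroup.mk (h i) * (QuotientGroup.mk a : K ⧸ N)))⁻¹ * h i * t (QuotientGroup.mk a) =
          (t (QuotientGroup.mk (h i * a)))⁻¹ * (h i * a) * ((t (QuotientGroup.mk a))⁻¹ * a)⁻¹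
        rw [QuotientGroup.mk_mul]
        group
      | refl a => rw [mul_inv_cancel]; exact one_mem _
      | symm a b _ ih => 
        have := inv_mem ih
        rwa [mul_inv_rev, inv_inv] at this
      | trans a b c _ _ ih1 ih2 =>
        have := mul_mem ih2 ih1
        rwa [mul_assoc, inv_mul_cancel_left] at this
    intro n hn
    have h1 := key 1 n (hS 1 n)
    have e1 : φ 1 = 1 := by
      show (t (QuotientGroup.mk 1))⁻¹ * 1 = 1
      rw [QuotientGroup.mk_one, ht1]; group
    have e2 : φ n = n := by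
      show (t (QuotientGroup.mk n))⁻¹ * n = n
      rw [(QuotientGroup.eq_one_iff n).2 hn, ht1]; group
    rwa [e1, e2, inv_one, mul_one] at h1

theorem t_min (hg : P_graph) : P_min := by
  classical
  intro K _ N _ I _ h F hS hmin i hi A₁ A₂ V h1 h2 d1 d2 x
  by_contra hlt
  push Not at hlt
  let A : Fin 4 → Finset K := ![A₁, A₁, A₂, A₂]
  have hA : ∀ l, ∀ a ∈ A l, a ∈ V ∧ h (i l) * a ∈ V := by
    intro l a ha
    fin_cases l
    · exact ⟨(h1 a ha).1, (h1 a ha).2.1⟩
    · exact ⟨(h1 a ha).1, (h1 a ha).2.2⟩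
    · exact ⟨(h2 a ha).1, (h2 a ha).2.1⟩
    · exact ⟨(h2 a ha).1, (h2 a ha).2.2⟩
  have dA : ∀ l, ∀ a ∈ A l, ∀ b ∈ A l, a⁻¹ * b ∈ N → a = b := by
    intro l
    fin_cases l
    exacts [d1, d1, d2, d2]
  let B : Fin 4 → Finset K := fun l => (A l).filter (fun a => ((QuotientGroup.mk (a * x) : K ⧸ N), i l) ∈ F)
  let es : Finset (Σ _ : Fin 4, K) := Finset.univ.sigma B
  let vs : Finset K := V.image (fun v => v * x)
  have hB : ∀ l, Nat.card {a : K // a ∈ A l ∧ ((QuotientGroup.mk (a * x) : K ⧸ N), i l) ∈ F} = (B l).card :=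
    fun l => Nat.subtype_card _ (fun a => Finset.mem_filter)
  have hc : vs.card < es.card := by
    have e1 : vs.card ≤ V.card := Finset.card_image_le
    have e2 : es.card = (B 0).card + (B 1).card + ((B 2).card + (B 3).card) := by
      show (Finset.univ.sigma B).card = _
      rw [Finset.card_sigma, Fin.sum_univ_four]; ring
    rw [e2, ← hB 0, ← hB 1, ← hB 2, ← hB 3]
    exact lt_of_le_of_lt e1 hlt
  obtain ⟨e, he, hE⟩ := hg K (Σ _ : Fin 4, K) vs es (fun e => e.2 * x) (fun e => h (i e.1) * (e.2 * x))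
    (fun e he => Finset.mem_image.2 ⟨e.2, (hA e.1 e.2 (Finset.mem_filter.1 (Finset.mem_sigma.1 he).2).1).1, rfl⟩)
    (fun e he => Finset.mem_image.2 ⟨h (i e.1) * e.2,
      (hA e.1 e.2 (Finset.mem_filter.1 (Finset.mem_sigma.1 he).2).1).2, mul_assoc _ _ _⟩) hc
  obtain ⟨l, a⟩ := e
  have hal := Finset.mem_filter.1 (Finset.mem_sigma.1 he).2
  have haF : ((QuotientGroup.mk (a * x) : K ⧸ N), i l) ∈ F := hal.2
  refine hmin (F.erase ((QuotientGroup.mk (a * x) : K ⧸ N), i l)) (Finset.erase_subset _ _)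
    (fun h => by
      have := Finset.notMem_erase ((QuotientGroup.mk (a * x) : K ⧸ N), i l) F
      rw [h] at this; exact this haF) ?_
  -- local paths, translated
  have loc : ∀ n ∈ N, ∀ p q, Relation.EqvGen (fun a' b' => ∃ e' ∈ es, e' ≠ (⟨l, a⟩ : Σ _ : Fin 4, K) ∧ e'.2 * x = a' ∧
      h (i e'.1) * (e'.2 * x) = b') p q →
      Relation.EqvGen (adj N h (F.erase ((QuotientGroup.mk (a * x) : K ⧸ N), i l))) (p * n) (q * n) := by
    intro n hn p q hpq
    induction hpq with
    | rel p q hpq =>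
      obtain ⟨⟨m, b⟩, hm, hne, rfl, rfl⟩ := hpq
      have hbm := Finset.mem_filter.1 (Finset.mem_sigma.1 hm).2
      apply Relation.EqvGen.rel
      refine ⟨i m, Finset.mem_erase.2 ⟨?_, ?_⟩, mul_assoc _ _ _⟩
      · intro hh
        obtain ⟨e1, e2⟩ := Prod.mk.inj hh
        have e3 := hi e2
        subst e3
        apply hne
        have e4 : (QuotientGroup.mk (b * x * n) : K ⧸ N) = QuotientGroup.mk (b * x) :=
          QuotientGroup.mk_mul_of_mem _ hn
        change (QuotientGroup.mk (b * x * n) : K ⧸ N) = _ at e1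
        rw [e4] at e1
        have e5 := QuotientGroup.eq.1 e1
        have e6 : b⁻¹ * a ∈ N := by
          have := (inferInstance : N.Normal).conj_mem _ e5 x
          have e7 : x * ((b * x)⁻¹ * (a * x)) * x⁻¹ = b⁻¹ * a := by group
          rwa [e7] at this
        have e8 := dA m b hbm.1 a hal.1 e6
        rw [e8]
      · have e4 : (QuotientGroup.mk (b * x * n) : K ⧸ N) = QuotientGroup.mk (b * x) :=
          QuotientGroup.mk_mul_of_mem _ hn
        show ((QuotientGroup.mk (b * x * n) : K ⧸ N), i m) ∈ F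
        rw [e4]
        exact hbm.2
    | refl p => exact Relation.EqvGen.refl _
    | symm p q _ ih => exact Relation.EqvGen.symm _ _ ih
    | trans p q r _ _ ih1 ih2 => exact Relation.EqvGen.trans _ _ _ ih1 ih2
  intro p q
  have hpq := hS p q
  induction hpq with
  | rel p q hpq =>
    obtain ⟨j, hj, rfl⟩ := hpq
    by_cases hE2 : ((QuotientGroup.mk p : K ⧸ N), j) = ((QuotientGroup.mk (a * x) : K ⧸ N), i l)
    · obtain ⟨e1, e2⟩ := Prod.mk.inj hE2
      subst e2
      have e5 := QuotientGroup.eq.1 e1.symm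
      have := loc _ e5 _ _ hE
      have e6 : a * x * ((a * x)⁻¹ * p) = p := mul_inv_cancel_left _ _
      change Relation.EqvGen _ (a * x * ((a * x)⁻¹ * p)) (h (i l) * (a * x) * ((a * x)⁻¹ * p)) at this
      rwa [mul_assoc (h (i l)), e6] at this
    · exact Relation.EqvGen.rel _ _ ⟨j, Finset.mem_erase.2 ⟨hE2, hj⟩, rfl⟩
  | refl p => exact Relation.EqvGen.refl _
  | symm p q _ ih => exact Relation.EqvGen.symm _ _ ih
  | trans p q r _ _ ih1 ih2 => exact Relation.EqvGen.trans _ _ _ ih1 ih2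

end Pool.Agent.Run7.h24.TN
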