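import Pool.Agent.Run7.h46.S.Defs

/-! Piece P1 of the project MP_9a84bf_lc (helper46). -/

namespace Pool.Agent.Run7.h24.P1

open Filter Function Run7.h46 Run7.h46.S FirstOrder FirstOrder.Language

variable {L : FirstOrder.Language.{0, 0}}

/-- codes of points -/
abbrev Idx (J : Type) (n : ℕ) (k : Fin n → ℕ) (m : ℕ) : Type :=
  Fin m ⊕ (Σ i : Fin n, J × Fin (k i))

/-- change of the index -/
def act {J J' : Type} {n : ℕ} {k : Fin n → ℕ} {m : ℕ} (σ : J → J') :
    Idx J n k m → Idx J' n k m :=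
  Sum.map id (fun q => ⟨q.1, σ q.2.1, q.2.2⟩)

/-- finite data -/
abbrev Data (L : FirstOrder.Language.{0, 0}) (r : ℕ) : Type :=
  Σ (n : ℕ) (k : Fin n → ℕ) (m : ℕ), Str L (Idx (Fin r) n k m)

/-- `M` is represented by the data `d` -/
def Rep (r : ℕ) (d : Data L r) (M : Type) [L.Structure M] : Prop :=
  ∃ e : Idx ℕ d.1 d.2.1 d.2.2.1 ≃ M,
    (∀ (σ : Equiv.Perm ℕ) (R : Σ n, L.Relations n) (x : Fin R.1 → Idx ℕ d.1 d.2.1 d.2.2.1),
      (ofS M R (e ∘ act σ ∘ x) ↔ ofS M R (e ∘ x))) ∧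
    ∀ (R : Σ n, L.Relations n) (x : Fin R.1 → Idx (Fin r) d.1 d.2.1 d.2.2.1),
      (ofS M R (e ∘ act Fin.val ∘ x) ↔ d.2.2.2 R x)

theorem exists_perm (r : ℕ) (J : Finset ℕ) (hJ : J.card ≤ r) :
    ∃ σ : Equiv.Perm ℕ, ∀ j ∈ J, σ j < r := by
  classical
  have h := Equiv.Perm.isMultiplyPretransitive ℕ J.card
  let x : Fin J.card ↪ ℕ := (J.orderEmbOfFin rfl).toEmbedding
  let y : Fin J.card ↪ ℕ := Fin.valEmbedding
  obtain ⟨σ, hσ⟩ := MulAction.exists_smul_eq (Equiv.Perm ℕ) x y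
  refine ⟨σ, fun j hj => ?_⟩
  have hr : j ∈ Set.range (J.orderEmbOfFin rfl) := by
    rw [Finset.range_orderEmbOfFin]; exact hj
  obtain ⟨i, rfl⟩ := hr
  have h1 : (σ • x) i = y i := by rw [hσ]
  have h2 : σ (J.orderEmbOfFin rfl i) = (i : ℕ) := h1
  rw [h2]
  exact i.2.trans_le hJ

theorem normal_form {n : ℕ} {k : Fin n → ℕ} {m r s : ℕ} (hs : s ≤ r)
    (y : Fin s → Idx ℕ n k m) :
    ∃ (σ : Equiv.Perm ℕ) (x : Fin s → Idx (Fin r) n k m), act σ ∘ y = act Fin.val ∘ x := by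
  classical
  let ix : Idx ℕ n k m → ℕ := Sum.elim (fun _ => 0) (fun q => q.2.1)
  obtain ⟨σ, hσ⟩ := exists_perm r (Finset.univ.image (ix ∘ y))
    (Finset.card_image_le.trans (by simpa using hs))
  have h : ∀ t, ∃ x : Idx (Fin r) n k m, act σ (y t) = act Fin.val x := by
    intro t
    have hlt : σ (ix (y t)) < r := hσ _ (Finset.mem_image_of_mem _ (Finset.mem_univ t))
    rcases hy : y t with a | q
    · exact ⟨Sum.inl a, rfl⟩
    · rw [hy] at hlt
      exact ⟨Sum.inr ⟨q.1, ⟨σ q.2.1, hlt⟩, q.2.2⟩, rfl⟩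
  choose x hx using h
  exact ⟨σ, x, funext hx⟩

theorem rep_iso [L.IsRelational] {r : ℕ} (hr : ∀ R : (Σ n, L.Relations n), R.1 ≤ r)
    {d : Data L r} {M M' : Type} [L.Structure M] [L.Structure M'] (h : Rep r d M)
    (h' : Rep r d M') : Nonempty (M ≃[L] M') := by
  obtain ⟨e, h1, h2⟩ := h
  obtain ⟨e', h1', h2'⟩ := h'
  have key : ∀ (R : Σ n, L.Relations n) (x : Fin R.1 → Idx ℕ d.1 d.2.1 d.2.2.1),
      (ofS M' R (e' ∘ x) ↔ ofS M R (e ∘ x)) := by
    intro R y
    obtain ⟨σ, x, hx⟩ := normal_form (hr R) y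
    rw [← h1 σ R y, ← h1' σ R y, hx, h2, h2']
  refine ⟨{ toEquiv := e.symm.trans e'
            map_fun' := fun f _ => isEmptyElim f
            map_rel' := ?_ }⟩
  intro n R x
  have := key ⟨n, R⟩ (e.symm ∘ x)
  have h3 : ⇑e ∘ ⇑e.symm ∘ x = x := by funext i; simp
  rw [h3] at this
  exact this

theorem exists_rep (r : ℕ) (M : Type) [L.Structure M] (hc : IsCellular L M) :
    ∃ d : Data L r, Rep r d M := by
  classical
  obtain ⟨n, k, K, c, hK, hcK, hinj, hcov, haut⟩ := hc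
  -- joint automorphism
  have hjoint : ∀ (σ : Equiv.Perm ℕ) (s : Finset (Fin n)), ∃ g : M ≃[L] M,
      (∀ i ∈ s, ∀ j l, g (c i j l) = c i (σ j) l) ∧ (∀ i ∉ s, ∀ j l, g (c i j l) = c i j l) ∧
      ∀ x ∈ K, g x = x := by
    intro σ s
    induction s using Finset.induction_on with
    | empty =>
      exact ⟨FirstOrder.Language.Equiv.refl L M, by simp, by simp, by simp⟩
    | insert i0 s hi0 ih =>
      obtain ⟨g, h1, h2, h3⟩ := ih
      obtain ⟨g', h4, h5⟩ := haut i0 σ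
      have hne : ∀ i, i ≠ i0 → ∀ j l j' l', c i j l ≠ c i0 j' l' := by
        intro i hi j l j' l' heq
        have := @hinj ⟨i, j, l⟩ ⟨i0, j', l'⟩ heq
        exact hi (congrArg Sigma.fst this)
      refine ⟨g'.comp g, ?_, ?_, ?_⟩
      · intro i hi j l
        rw [FirstOrder.Language.Equiv.comp_apply]
        rcases Finset.mem_insert.1 hi with rfl | hi
        · rw [h2 i hi0, h4]
        · rw [h1 i hi, h5]
          exact hne i (fun h => hi0 (h ▸ hi)) _ _
      · intro i hi j l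
        rw [Finset.mem_insert, not_or] at hi
        rw [FirstOrder.Language.Equiv.comp_apply, h2 i hi.2, h5]
        exact hne i hi.1 _ _
      · intro x hx
        rw [FirstOrder.Language.Equiv.comp_apply, h3 x hx, h5]
        intro j l h
        exact hcK i0 j l (h ▸ hx)
  have hKf : Finite K := hK
  obtain ⟨m, ⟨e0⟩⟩ := Finite.exists_equiv_fin K
  let F : Idx ℕ n k m → M :=
    Sum.elim (fun a => ((e0.symm a : K) : M)) (fun q => c q.1 q.2.1 q.2.2)
  have hF : Bijective F := by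
    constructor
    · rintro (a | q) (b | q') h
      · have h1 : ((e0.symm a : K) : M) = (e0.symm b : K) := h
        rw [e0.symm.injective (Subtype.ext h1)]
      · have h1 : ((e0.symm a : K) : M) = c q'.1 q'.2.1 q'.2.2 := h
        exact absurd (h1 ▸ (e0.symm a).2) (hcK _ _ _)
      · have h1 : c q.1 q.2.1 q.2.2 = ((e0.symm b : K) : M) := h
        exact absurd (h1.symm ▸ (e0.symm b).2) (hcK q.1 q.2.1 q.2.2)
      · exact congrArg Sum.inr (hinj h)
    · intro x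
      rcases hcov x with h | ⟨i, j, l, rfl⟩
      · exact ⟨Sum.inl (e0 ⟨x, h⟩), by simp [F]⟩
      · exact ⟨Sum.inr ⟨i, j, l⟩, rfl⟩
  let e : Idx ℕ n k m ≃ M := Equiv.ofBijective F hF
  refine ⟨⟨n, k, m, fun R x => ofS M R (e ∘ act Fin.val ∘ x)⟩, e, ?_, fun R x => Iff.rfl⟩
  intro σ R x
  obtain ⟨g, h1, _, h3⟩ := hjoint σ Finset.univ
  have h4 : ⇑e ∘ act σ ∘ x = ⇑g ∘ (⇑e ∘ x) := by
    funext t
    change F (act σ (x t)) = g (F (x t))
    rcases x t with a | q
    · exact (h3 _ (e0.symm a).2).symm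
    · exact (h1 q.1 (Finset.mem_univ _) q.2.1 q.2.2).symm
  rw [h4]
  exact g.map_rel R.2 (⇑e ∘ x)

theorem main_P1 : StP1 := by
  classical
  intro L _ _ N inst hc
  have hfinR : Finite (Σ n, L.Relations n) :=
    Finite.of_injective (fun R => (Sum.inr R : L.Symbols)) Sum.inr_injective
  obtain ⟨r, hr⟩ : ∃ r : ℕ, ∀ R : (Σ n, L.Relations n), R.1 ≤ r := by
    obtain ⟨r, hr⟩ := (Set.finite_range (fun R : (Σ n, L.Relations n) => R.1)).bddAbove
    exact ⟨r, fun R => hr ⟨R, rfl⟩⟩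
  have hex : ∀ S, ∃ d : Data L r, @Rep L r d (N S) (inst S) := fun S =>
    @exists_rep L r (N S) (inst S) (hc S)
  choose d hd using hex
  have hcount : Countable (Data L r) := by
    have h1 : ∀ (n : ℕ) (k : Fin n → ℕ) (m : ℕ), Countable (Str L (Idx (Fin r) n k m)) := by
      intro n k m
      have : Finite (Str L (Idx (Fin r) n k m)) := by
        unfold Str
        infer_instance
      infer_instance
    infer_instance
  obtain ⟨φ, hφ⟩ := hcount.exists_injective_nat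
  have hnot : ¬ Injective (fun S => φ (d S)) := cantor_injective _
  rw [not_injective_iff] at hnot
  obtain ⟨S, S', h1, h2⟩ := hnot
  refine ⟨S, S', h2, ?_⟩
  have h3 : d S = d S' := hφ h1
  exact @rep_iso L _ r hr (d S') (N S) (N S') (inst S) (inst S') (h3 ▸ hd S) (hd S')

end Pool.Agent.Run7.h24.P1
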