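import Pool.Agent.Run7.h46.S.Defs
import Pool.Agent.Run7.h46.Unst2

/-! Piece P2 of the project MP_9a84bf_lc (helper46). -/

namespace Pool.Agent.Run7.h24.P2

open Filter Function Run7.h46 Run7.h46.S

variable {L : FirstOrder.Language.{0, 0}}

/-- conditions -/
abbrev Cond (L : FirstOrder.Language.{0, 0}) (X : Type) : Type :=
  Σ R : (Σ n, L.Relations n), (Fin R.1 → X)

/-- value of a condition -/
def val {X : Type} (p : Str L X) (c : Cond L X) : Prop := p c.1 c.2

theorem exists_diff {X : Type} {p q : Str L X} (h : p ≠ q) : ∃ c : Cond L X, ¬ (val p c ↔ val q c) := by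
  by_contra hcon
  push Not at hcon
  apply h
  funext R t
  exact propext (hcon ⟨R, t⟩)

/-- an eventual equivalence from the equivalence with an eventual statement -/
theorem ev_iff {Z : Type*} (𝒰 : Ultrafilter Z) {P : Prop} {Q : Z → Prop}
    (h : P ↔ ∀ᶠ z in (𝒰 : Filter Z), Q z) : ∀ᶠ z in (𝒰 : Filter Z), (Q z ↔ P) := by
  by_cases hP : P
  · exact (h.1 hP).mono fun z hz => ⟨fun _ => hP, fun _ => hz⟩
  · have h1 : ∀ᶠ z in (𝒰 : Filter Z), ¬ Q z := Ultrafilter.eventually_not.2 fun h1 => hP (h.2 h1)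
    exact h1.mono fun z hz => ⟨fun h2 => absurd h2 hz, fun h2 => absurd h2 hP⟩

theorem iff_ev {Z : Type*} (𝒰 : Ultrafilter Z) {P : Prop} {Q : Z → Prop}
    (h : ∀ᶠ z in (𝒰 : Filter Z), (P ↔ Q z)) : P ↔ ∀ᶠ z in (𝒰 : Filter Z), Q z := by
  constructor
  · intro hP
    exact h.mono fun z hz => hz.1 hP
  · intro hQ
    obtain ⟨z, h1, h2⟩ := (h.and hQ).exists
    exact h1.2 h2

/-- prepend a root to two trees -/
def glue {α : Type*} (r : α) (a b : List Bool → α) : List Bool → α
  | [] => r
  | true :: τ => a τ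
  | false :: τ => b τ

theorem tree_exists {X : Type} (Z : Set (Str L X)) (c₀ : Cond L X) : ∀ (m : ℕ) (q : Str L X),
    q ∈ derN m Z → ∀ D : Finset (Cond L X),
    ∃ (c : List Bool → Cond L X) (p : List Bool → Str L X), ∀ σ : List Bool, σ.length = m →
      p σ ∈ Z ∧ (∀ d ∈ D, (val (p σ) d ↔ val q d)) ∧
        ∀ i (hi : i < σ.length), (val (p σ) (c (σ.take i)) ↔ σ[i] = true) := by
  classical
  intro m
  induction m with
  | zero =>
    intro q hq D
    refine ⟨fun _ => c₀, fun _ => q, fun σ hσ => ⟨hq, fun _ _ => Iff.rfl, fun i hi => ?_⟩⟩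
    omega
  | succ m ih =>
    intro q hq D
    obtain ⟨ℱ, hℱ, hlim⟩ := hq
    have hval : ∀ d : Cond L X, ∀ᶠ p in (ℱ : Filter (Str L X)), (val p d ↔ val q d) := by
      intro d
      apply ev_iff
      rw [← hlim]
      rfl
    have hD : ∀ D : Finset (Cond L X), ∀ᶠ p in (ℱ : Filter (Str L X)), ∀ d ∈ D, (val p d ↔ val q d) :=
      fun D => (Filter.eventually_all_finset D).2 fun d _ => hval d
    obtain ⟨p₁, h1, h2⟩ := (hℱ.and (hD D)).exists
    obtain ⟨d, hd⟩ := exists_diff h1.2
    obtain ⟨p₂, h3, h4⟩ := (hℱ.and (hD (insert d D))).exists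
    have h4d : val p₂ d ↔ val q d := h4 d (Finset.mem_insert_self _ _)
    have h4D : ∀ e ∈ D, (val p₂ e ↔ val q e) := fun e he => h4 e (Finset.mem_insert_of_mem he)
    -- sort the two
    obtain ⟨pt, pf, hpt, hpf, hptD, hpfD, hptd, hpfd⟩ : ∃ pt pf : Str L X, pt ∈ derN m Z ∧
        pf ∈ derN m Z ∧ (∀ e ∈ D, (val pt e ↔ val q e)) ∧ (∀ e ∈ D, (val pf e ↔ val q e)) ∧
        val pt d ∧ ¬ val pf d := by
      by_cases hv : val p₁ d
      · refine ⟨p₁, p₂, h1.1, h3.1, h2, h4D, hv, fun h5 => hd ⟨fun _ => h4d.1 h5, fun _ => hv⟩⟩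
      · refine ⟨p₂, p₁, h3.1, h1.1, h4D, h2, ?_, hv⟩
        by_contra h5
        exact hd ⟨fun h6 => absurd h6 hv, fun h6 => absurd (h4d.2 h6) h5⟩
    obtain ⟨ct, qt, ht⟩ := ih pt hpt (insert d D)
    obtain ⟨cf, qf, hf⟩ := ih pf hpf (insert d D)
    refine ⟨glue d ct cf, glue q qt qf, ?_⟩
    intro σ hσ
    match σ, hσ with
    | true :: τ, hσ =>
      have hτ : τ.length = m := by simpa using hσ
      obtain ⟨a1, a2, a3⟩ := ht τ hτ
      refine ⟨a1, fun e he => (a2 e (Finset.mem_insert_of_mem he)).trans (hptD e he), ?_⟩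
      intro i hi
      rcases i with _ | i
      · have := a2 d (Finset.mem_insert_self _ _)
        simp only [List.take_zero, glue, List.getElem_cons_zero, iff_true]
        exact this.2 hptd
      · have hi' : i < τ.length := by simpa using hi
        simpa [glue] using a3 i hi'
    | false :: τ, hσ =>
      have hτ : τ.length = m := by simpa using hσ
      obtain ⟨a1, a2, a3⟩ := hf τ hτ
      refine ⟨a1, fun e he => (a2 e (Finset.mem_insert_of_mem he)).trans (hpfD e he), ?_⟩
      intro i hi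
      rcases i with _ | i
      · have := a2 d (Finset.mem_insert_self _ _)
        simp only [List.take_zero, glue, List.getElem_cons_zero, Bool.false_eq_true, iff_false]
        exact fun h => hpfd (this.1 h)
      · have hi' : i < τ.length := by simpa using hi
        simpa [glue] using a3 i hi'

/-- a binary tree of depth `m` in `B` -/
def TreeB (T : Type) (B : Str L ℕ) (m : ℕ) (c : List Bool → Cond L (T ⊕ ℕ))
    (w : List Bool → T → ℕ) : Prop :=
  ∀ σ : List Bool, σ.length = m → ∀ i (hi : i < σ.length),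
    (B (c (σ.take i)).1 (Sum.elim (w σ) id ∘ (c (σ.take i)).2) ↔ σ[i] = true)

theorem tree_real {T : Type} [Finite T] {A B : Str L ℕ} (hAB : FinEmb A B) (m : ℕ)
    (c₀ : Cond L (T ⊕ ℕ)) (h : (derN m (Ty T A)).Nonempty) :
    ∃ (c : List Bool → Cond L (T ⊕ ℕ)) (w : List Bool → T → ℕ), TreeB T B m c w := by
  classical
  obtain ⟨q, hq⟩ := h
  obtain ⟨c, p, hcp⟩ := tree_exists (Ty T A) c₀ m q hq ∅
  have hw : ∀ σ : List Bool, ∃ w : T → ℕ, σ.length = m → ∀ i (hi : i < σ.length),
      (A (c (σ.take i)).1 (Sum.elim w id ∘ (c (σ.take i)).2) ↔ σ[i] = true) := by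
    intro σ
    by_cases hσ : σ.length = m
    · obtain ⟨⟨𝒰, _, hU⟩, -, h3⟩ := hcp σ hσ
      have h4 : ∀ᶠ w in (𝒰 : Filter (T → ℕ)), ∀ i : Fin σ.length,
          (A (c (σ.take i)).1 (Sum.elim w id ∘ (c (σ.take i)).2) ↔ σ[i] = true) := by
        refine eventually_all.2 fun i => ?_
        have h5 := h3 i i.2
        rw [← hU] at h5
        exact ev_iff 𝒰 (P := σ[(i : ℕ)] = true) h5.symm
      obtain ⟨w, hw⟩ := h4.exists
      exact ⟨w, fun _ i hi => hw ⟨i, hi⟩⟩
    · exact ⟨fun _ => 0, fun h => absurd h hσ⟩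
  choose w hw using hw
  have hfin1 : {σ : List Bool | σ.length = m}.Finite := List.finite_length_eq Bool m
  have hfin2 : {σ : List Bool | σ.length < m}.Finite := List.finite_length_lt Bool m
  let s1 : Set ℕ := ⋃ σ ∈ {σ : List Bool | σ.length = m}, Set.range (w σ)
  let s2 : Set ℕ := ⋃ τ ∈ {σ : List Bool | σ.length < m},
    Set.range (fun k => Sum.elim (fun _ => 0) id ((c τ).2 k) : Fin (c τ).1.1 → ℕ)
  have hs1 : s1.Finite := hfin1.biUnion fun σ _ => Set.finite_range _
  have hs2 : s2.Finite := hfin2.biUnion fun σ _ => Set.finite_range _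
  obtain ⟨f, hf, hf'⟩ := hAB (hs1.union hs2).toFinset
  refine ⟨fun τ => ⟨(c τ).1, Sum.map id f ∘ (c τ).2⟩, fun σ => f ∘ w σ, ?_⟩
  intro σ hσ i hi
  rw [← hw σ hσ i hi]
  have hlen : (σ.take i).length < m := by rw [List.length_take]; omega
  have h5 := hf' (c (σ.take i)).1 (Sum.elim (w σ) id ∘ (c (σ.take i)).2) (by
    intro k
    rw [Set.Finite.mem_toFinset]
    rcases hk : (c (σ.take i)).2 k with x | y
    · left
      refine Set.mem_biUnion (show σ ∈ {σ : List Bool | σ.length = m} from hσ) ⟨x, ?_⟩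
      simp [hk]
    · right
      refine Set.mem_biUnion (show σ.take i ∈ {σ : List Bool | σ.length < m} from hlen) ⟨k, ?_⟩
      simp [hk])
  rw [h5]
  have h6 : f ∘ Sum.elim (w σ) id ∘ (c (σ.take i)).2 =
      Sum.elim (f ∘ w σ) id ∘ Sum.map id f ∘ (c (σ.take i)).2 := by
    funext k
    simp only [comp_apply]
    rcases (c (σ.take i)).2 k with x | y <;> rfl
  rw [h6]

/-- patterns -/
abbrev Pat (L : FirstOrder.Language.{0, 0}) (T : Type) : Type :=
  Σ R : (Σ n, L.Relations n), (Fin R.1 → Option T)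

/-- join a tuple and parameters along a pattern -/
def join {T N : Type} {r : ℕ} (s : Fin r → Option T) (w : T → N) (y : ℕ → N) : Fin r → N :=
  fun k => (s k).elim (y k) w

/-- pattern of a condition -/
def pat {T : Type} (c : Cond L (T ⊕ ℕ)) : Pat L T :=
  ⟨c.1, fun k => Sum.elim some (fun _ => none) (c.2 k)⟩

/-- parameters of a condition -/
def par {T : Type} (c : Cond L (T ⊕ ℕ)) : ℕ → ℕ :=
  fun k => if h : k < c.1.1 then Sum.elim (fun _ => 0) id (c.2 ⟨k, h⟩) else 0

theorem join_pat {T : Type} (B : Str L ℕ) (c : Cond L (T ⊕ ℕ)) (w : T → ℕ) :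
    (B c.1 (Sum.elim w id ∘ c.2) ↔ B (pat c).1 (join (pat c).2 w (par c))) := by
  have : Sum.elim w id ∘ c.2 = join (pat c).2 w (par c) := by
    funext k
    simp only [join, pat, par, comp_apply]
    rw [dif_pos k.2]
    rcases c.2 k with x | y <;> simp
  rw [this]
  rfl

/-- initial segments of a branch -/
def pre (β : ℕ → Bool) (k : ℕ) : List Bool := (List.range k).map β

theorem pre_length (β : ℕ → Bool) (k : ℕ) : (pre β k).length = k := by simp [pre]

theorem pre_take (β : ℕ → Bool) {i k : ℕ} (h : i ≤ k) : (pre β k).take i = pre β i := by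
  simp [pre, ← List.map_take, List.take_range, h]

theorem pre_get (β : ℕ → Bool) {i k : ℕ} (h : i < (pre β k).length) : (pre β k)[i] = β i := by
  simp [pre]

theorem no_trees [Finite L.Symbols] {B : Str L ℕ} {n : ℕ} (hB : Stable B n) {T : Type} [Finite T]
    (c : ℕ → List Bool → Cond L (T ⊕ ℕ)) (w : ℕ → List Bool → T → ℕ)
    (h : ∀ m, TreeB T B m (c m) (w m)) : False := by
  classical
  have hfinR : Finite (Σ n, L.Relations n) :=
    Finite.of_injective (fun R => (Sum.inr R : L.Symbols)) Sum.inr_injective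
  let H := hyperfilter ℕ
  have hgt : ∀ m : ℕ, ∀ᶠ k in (H : Filter ℕ), m < k := by
    intro m
    have h𝒰 : (hyperfilter ℕ : Filter ℕ) ≤ atTop := by
      rw [← Nat.cofinite_eq_atTop]; exact hyperfilter_le_cofinite
    exact h𝒰 (eventually_gt_atTop m)
  let G := (H : Filter ℕ).Germ ℕ
  let g : (ℕ → ℕ) → G := fun v => (v : (H : Filter ℕ).Germ ℕ)
  have hup : ∀ (R : Σ n, L.Relations n) (v : Fin R.1 → ℕ → ℕ),
      (upw B R (fun i => g (v i)) ↔ ∀ᶠ m in (H : Filter ℕ), B R (fun i => v i m)) := by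
    intro R v
    apply iff_ev
    exact (germ_same B v).mono fun m hm => hm.2 R id
  -- eventual patterns
  have hpat : ∀ η : List Bool, ∃ π : Pat L T, ∀ᶠ m in (H : Filter ℕ), pat (c m η) = π := by
    intro η
    have h1 : ∀ᶠ m in (H : Filter ℕ), ∃ π : Pat L T, pat (c m η) = π :=
      Eventually.of_forall fun m => ⟨_, rfl⟩
    exact (Ultrafilter.eventually_exists_iff).1 h1
  choose π hπ using hpat
  let z : List Bool → ℕ → G := fun η k => g (fun m => par (c m η) k)
  let ext : ℕ → List Bool → List Bool := fun m τ => τ ++ List.replicate (m - τ.length) false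
  let W : List Bool → T → G := fun τ x => g (fun m => w m (ext m τ) x)
  let ρ : Pat L T → List Bool → (ℕ → G) → Prop := fun π τ y => upw B π.1 (join π.2 (W τ) y)
  have hstab : ∀ π, NoHG n (ρ π) := by
    intro π
    refine stab_sep hB (upw_finEmb B) π.1 (fun τ y => join π.2 (W τ) y) ?_
    intro k
    rcases hk : π.2 k with _ | x
    · right
      exact ⟨fun y => y k, fun τ y => by simp [join, hk]⟩
    · left
      exact ⟨fun τ => W τ x, fun τ y => by simp [join, hk]⟩
  -- the values on the tree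
  have hval : ∀ (τ : List Bool) (i : ℕ) (hi : i < τ.length),
      (ρ (π (τ.take i)) τ (z (τ.take i)) ↔ τ[i] = true) := by
    intro τ i hi
    set η := τ.take i with hη
    have h1 : join (π η).2 (W τ) (z η) =
        fun k => g (fun m => join (π η).2 (w m (ext m τ)) (par (c m η)) k) := by
      funext k
      simp only [join]
      rcases (π η).2 k with _ | x <;> rfl
    change upw B (π η).1 (join (π η).2 (W τ) (z η)) ↔ _
    rw [h1, hup]
    symm
    apply iff_ev
    filter_upwards [hgt τ.length, hπ η] with m hm hm'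
    have hlen : (ext m τ).length = m := by
      simp only [ext, List.length_append, List.length_replicate]; omega
    have htake : (ext m τ).take i = η := by
      simp only [ext]
      rw [List.take_append_of_le_length hi.le]
    have hget : (ext m τ)[i]'(by rw [hlen]; omega) = τ[i] := by
      simp only [ext]
      rw [List.getElem_append_left hi]
    have h2 := h m (ext m τ) hlen i (by rw [hlen]; omega)
    rw [hget, htake] at h2
    have h3 := (join_pat B (c m η) (w m (ext m τ))).symm.trans h2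
    rw [hm'] at h3
    exact h3.symm
  -- limits along branches
  let 𝒰 : (ℕ → Bool) → Ultrafilter (List Bool) := fun β => H.map (pre β)
  let lim : (ℕ → Bool) → Pat L T → (ℕ → G) → Prop := fun β π y =>
    ∀ᶠ τ in (𝒰 β : Filter (List Bool)), ρ π τ y
  have hdef : ∀ (β : ℕ → Bool) (π : Pat L T), ∃ W : Finset (List Bool), ∀ y y',
      (∀ τ ∈ W, (ρ π τ y ↔ ρ π τ y')) → (lim β π y → lim β π y') := fun β π =>
    def_lemma (hstab π) (𝒰 β)
  choose V hV using hdef
  let tr : Pat L T → Finset (List Bool) → (ℕ → G) → Finset (List Bool) := fun π V y =>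
    V.filter (fun τ => ρ π τ y)
  let code : (ℕ → Bool) → Pat L T → Finset (List Bool) × Finset (Finset (List Bool)) :=
    fun β π => (V β π, (V β π).powerset.filter (fun S => ∃ y, lim β π y ∧ S = tr π (V β π) y))
  have hcode : ∀ β β' π y, code β π = code β' π → lim β π y → lim β' π y := by
    intro β β' π y hc hl
    have h1 : V β π = V β' π := congrArg Prod.fst hc
    have h2 : (V β π).powerset.filter (fun S => ∃ y, lim β π y ∧ S = tr π (V β π) y) =
      (V β' π).powerset.filter (fun S => ∃ y, lim β' π y ∧ S = tr π (V β' π) y) :=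
      congrArg Prod.snd hc
    have h3 : tr π (V β π) y ∈
        (V β π).powerset.filter (fun S => ∃ y, lim β π y ∧ S = tr π (V β π) y) := by
      rw [Finset.mem_filter, Finset.mem_powerset]
      exact ⟨Finset.filter_subset _ _, y, hl, rfl⟩
    rw [h2, Finset.mem_filter] at h3
    obtain ⟨-, y', hl', h4⟩ := h3
    refine hV β' π y' y ?_ hl'
    intro τ hτ
    rw [h1] at h4
    have h5 : τ ∈ tr π (V β' π) y ↔ τ ∈ tr π (V β' π) y' := by rw [h4]
    simp only [tr, Finset.mem_filter, hτ, true_and] at h5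
    exact h5.symm
  -- counting
  have hcount : Countable (Pat L T → Finset (List Bool) × Finset (Finset (List Bool))) :=
    inferInstance
  obtain ⟨φ, hφ⟩ := hcount.exists_injective_nat
  have hnot : ¬ Injective (fun S : Set ℕ => φ (code (fun i => decide (i ∈ S)))) :=
    cantor_injective _
  rw [not_injective_iff] at hnot
  obtain ⟨S, S', h1, h2⟩ := hnot
  have h3 := hφ h1
  set β : ℕ → Bool := fun i => decide (i ∈ S) with hβ
  set β' : ℕ → Bool := fun i => decide (i ∈ S') with hβ'
  have hne : ∃ i, β i ≠ β' i := by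
    by_contra hcon
    push Not at hcon
    apply h2
    ext i
    have := hcon i
    simpa [hβ, hβ'] using this
  let i := Nat.find hne
  have hi : β i ≠ β' i := Nat.find_spec hne
  have hlt : ∀ j < i, β j = β' j := fun j hj => by
    by_contra hcon
    exact Nat.find_min hne hj hcon
  have hpre : pre β i = pre β' i := by
    simp only [pre]
    apply List.map_congr_left
    intro j hj
    exact hlt j (List.mem_range.1 hj)
  have hlim : ∀ b : ℕ → Bool, (lim b (π (pre b i)) (z (pre b i)) ↔ b i = true) := by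
    intro b
    symm
    have h4 : ∀ᶠ τ in (𝒰 b : Filter (List Bool)), (b i = true ↔ ρ (π (pre b i)) τ (z (pre b i))) := by
      change ∀ᶠ τ in ((H.map (pre b) : Ultrafilter (List Bool)) : Filter (List Bool)), _
      rw [Ultrafilter.coe_map, Filter.eventually_map]
      filter_upwards [hgt i] with k hk
      have h5 := hval (pre b k) i (by rw [pre_length]; exact hk)
      rw [pre_take b hk.le, pre_get] at h5
      exact h5.symm
    exact iff_ev _ h4
  have e1 := hlim β
  have e2 := hlim β'
  rw [← hpre] at e2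
  have e3 : lim β (π (pre β i)) (z (pre β i)) ↔ lim β' (π (pre β i)) (z (pre β i)) :=
    ⟨hcode β β' _ _ (congrFun h3 _), hcode β' β _ _ (congrFun h3 _).symm⟩
  apply hi
  rw [Bool.eq_iff_iff, ← e1, ← e2, e3]

theorem main_P2 : StP2 := by
  classical
  intro L _ B n hB T _
  by_contra hcon
  push Not at hcon
  by_cases hc : Nonempty (Cond L (T ⊕ ℕ))
  · obtain ⟨c₀⟩ := hc
    have h1 : ∀ m : ℕ, ∃ (c : List Bool → Cond L (T ⊕ ℕ)) (w : List Bool → T → ℕ),
        TreeB T B m c w := by
      intro m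
      obtain ⟨A, hA, hne⟩ := hcon m
      exact tree_real hA m c₀ hne
    choose c w hcw using h1
    exact no_trees hB c w hcw
  · obtain ⟨A, hA, hne⟩ := hcon 1
    obtain ⟨q, ℱ, hℱ, -⟩ := hne
    obtain ⟨p, hp⟩ := hℱ.exists
    obtain ⟨d, -⟩ := exists_diff hp.2
    exact hc ⟨d⟩

end Pool.Agent.Run7.h24.P2
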