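import Pool.Agent.Run7.h46.S.Defs

/-! Piece P4 of the project MP_9a84bf_lc (helper46). -/

namespace Pool.Agent.Run7.h24.P4

open Filter Function Run7.h46 Run7.h46.S FirstOrder FirstOrder.Language

theorem transfer (L : FirstOrder.Language.{0, 0}) [L.IsRelational] (N N' : Type) [Nonempty N]
    (A : Str L N) (A' : Str L N') (hAA : @ElementarilyEquivalent L N N' (toS A) (toS A'))
    (ψ : L.Formula N) (hψ : @Formula.Realize L N (toS A) N ψ id) :
    ∃ g : N → N', @Formula.Realize L N' (toS A') N ψ g := by
  classical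
  let _ := toS A
  let _ := toS A'
  have hN' : Nonempty N' := ElementarilyEquivalent.nonempty hAA
  -- the closed formula
  let φ : L.Formula (Empty ⊕ ψ.freeVarFinset) :=
    BoundedFormula.restrictFreeVar ψ (fun x => Sum.inr x)
  have h1 : (φ.iExs ψ.freeVarFinset).Realize (default : Empty → N) := by
    rw [Formula.realize_iExs]
    refine ⟨fun x => x.1, ?_⟩
    exact (BoundedFormula.realize_restrictFreeVar (φ := ψ) (v' := id) (f := fun x => Sum.inr x)
      (v := Sum.elim (default : Empty → N) (fun x => x.1)) (by intro x; rfl)).2 hψ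
  have h2 : (φ.iExs ψ.freeVarFinset).Realize (default : Empty → N') :=
    (elementarilyEquivalent_iff.1 hAA _).1 h1
  rw [Formula.realize_iExs] at h2
  obtain ⟨i, hi⟩ := h2
  let g : N → N' := fun x => if h : x ∈ ψ.freeVarFinset then i ⟨x, h⟩ else hN'.some
  refine ⟨g, ?_⟩
  refine (BoundedFormula.realize_restrictFreeVar (φ := ψ) (v' := g) (f := fun x => Sum.inr x)
      (v := Sum.elim (default : Empty → N') i) ?_).1 hi
  intro x
  simp [g]

theorem main_P4 : StP4 := by
  classical
  intro L _ N N' _ A A' hAA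
  let I : Type := {ψ : L.Formula N // @Formula.Realize L N (toS A) N ψ id}
  let S : I → Set (N → N') := fun ψ => {g | @Formula.Realize L N' (toS A') N ψ.1 g}
  have hI : Nonempty I := ⟨⟨⊤, by
    let _ := toS A
    simp⟩⟩
  have hdir : Directed (· ≥ ·) (fun i : I => 𝓟 (S i)) := by
    intro i j
    refine ⟨⟨i.1 ⊓ j.1, ?_⟩, ?_, ?_⟩
    · let _ := toS A
      rw [Formula.realize_inf]
      exact ⟨i.2, j.2⟩
    · apply Filter.principal_mono.2
      intro g hg
      let _ := toS A'
      have : (i.1 ⊓ j.1).Realize g := hg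
      rw [Formula.realize_inf] at this
      exact this.1
    · apply Filter.principal_mono.2
      intro g hg
      let _ := toS A'
      have : (i.1 ⊓ j.1).Realize g := hg
      rw [Formula.realize_inf] at this
      exact this.2
  have hne : NeBot (⨅ i : I, 𝓟 (S i)) := by
    apply Filter.iInf_neBot_of_directed' hdir
    intro i
    rw [Filter.principal_neBot_iff]
    exact transfer L N N' A A' hAA i.1 i.2
  let 𝒢 : Ultrafilter (N → N') := Ultrafilter.of (⨅ i : I, 𝓟 (S i))
  have hle : (𝒢 : Filter (N → N')) ≤ ⨅ i : I, 𝓟 (S i) := Ultrafilter.of_le _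
  have hmem : ∀ ψ : L.Formula N, @Formula.Realize L N (toS A) N ψ id →
      ∀ᶠ g in (𝒢 : Filter (N → N')), @Formula.Realize L N' (toS A') N ψ g := by
    intro ψ hψ
    have : (𝒢 : Filter (N → N')) ≤ 𝓟 (S ⟨ψ, hψ⟩) := hle.trans (iInf_le _ _)
    exact Filter.le_principal_iff.1 this
  refine ⟨𝒢, fun V P hP v => ?_⟩
  obtain ⟨φ, hφ⟩ := hP
  have key : ∀ ψ : L.Formula V, @Formula.Realize L N (toS A) V ψ v →
      ∀ᶠ g in (𝒢 : Filter (N → N')), @Formula.Realize L N' (toS A') V ψ (g ∘ v) := by
    intro ψ hψ
    have h1 : @Formula.Realize L N (toS A) N (ψ.relabel v) id := by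
      let _ := toS A
      rw [Formula.realize_relabel]
      exact hψ
    refine (hmem _ h1).mono fun g hg => ?_
    let _ := toS A'
    rw [Formula.realize_relabel] at hg
    exact hg
  constructor
  · intro h
    refine (key φ ((hφ N A v).2 h)).mono fun g hg => (hφ N' A' _).1 hg
  · intro h
    by_contra hn
    have h2 : @Formula.Realize L N (toS A) V φ.not v := by
      let _ := toS A
      rw [Formula.realize_not]
      exact fun h3 => hn ((hφ N A v).1 h3)
    obtain ⟨g, hg1, hg2⟩ := (h.and (key _ h2)).exists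
    let _ := toS A'
    rw [Formula.realize_not] at hg2
    exact hg2 ((hφ N' A' _).2 hg1)

end Pool.Agent.Run7.h24.P4
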