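import Pool.Agent.Run7.h46.S.Defs

/-! Piece P6 of the project MP_9a84bf_lc (helper46). -/

namespace Pool.Agent.Run7.h24.P6

open Filter Function Run7.h46 Run7.h46.S

theorem main_P6 : StP6 := by
  classical
  intro X N 𝒰 n f
  -- constant positions
  have hpos : ∀ k : Fin n, (∃ m : N, ∀ᶠ x in (𝒰 : Filter X), f x k = m) ∨
      ∀ m : N, ∀ᶠ x in (𝒰 : Filter X), f x k ≠ m := by
    intro k
    by_cases h : ∃ m : N, ∀ᶠ x in (𝒰 : Filter X), f x k = m
    · exact Or.inl h
    · right
      intro m
      have : ¬ ∀ᶠ x in (𝒰 : Filter X), f x k = m := fun h' => h ⟨m, h'⟩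
      exact Ultrafilter.eventually_not.2 this
  -- eventual equality
  let E : Fin n → Fin n → Prop := fun k l => ∀ᶠ x in (𝒰 : Filter X), f x k = f x l
  have hE : ∀ k l, ¬ E k l → ∀ᶠ x in (𝒰 : Filter X), f x k ≠ f x l := fun k l h =>
    Ultrafilter.eventually_not.2 h
  let S : Setoid (Fin n) :=
    { r := E
      iseqv :=
        { refl := fun k => Eventually.of_forall fun x => rfl
          symm := fun {k l} h => h.mono fun x hx => hx.symm
          trans := fun {k l m} h h' => (h.and h').mono fun x hx => hx.1.trans hx.2 } }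
  -- moving positions
  let Mv : Type := {q : Quotient S // ∀ m : N, ∀ᶠ x in (𝒰 : Filter X), f x q.out ≠ m}
  have : Finite (Quotient S) := Quotient.finite S
  have : Finite Mv := Subtype.finite
  obtain ⟨e, ⟨φ⟩⟩ := Finite.exists_equiv_fin Mv
  have hout : ∀ k : Fin n, ∀ᶠ x in (𝒰 : Filter X), f x ((Quotient.mk S k).out) = f x k := by
    intro k
    exact Quotient.exact (Quotient.out_eq (Quotient.mk S k))
  have hmv : ∀ k : Fin n, (¬ ∃ m : N, ∀ᶠ x in (𝒰 : Filter X), f x k = m) →
      ∀ m : N, ∀ᶠ x in (𝒰 : Filter X), f x ((Quotient.mk S k).out) ≠ m := by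
    intro k hk m
    have h1 := (hpos k).resolve_left hk m
    filter_upwards [h1, hout k] with x h2 h3
    rw [h3]; exact h2
  let s : Fin n → Fin e ⊕ N := fun k =>
    if h : ∃ m : N, ∀ᶠ x in (𝒰 : Filter X), f x k = m then Sum.inr h.choose
    else Sum.inl (φ ⟨Quotient.mk S k, hmv k h⟩)
  refine ⟨e, s, fun x j => f x (φ.symm j).1.out, ?_, ?_, ?_, ?_⟩
  · intro j
    refine ⟨(φ.symm j).1.out, ?_⟩
    have hno : ¬ ∃ m : N, ∀ᶠ x in (𝒰 : Filter X), f x (φ.symm j).1.out = m := by
      rintro ⟨m, hm⟩
      have h1 := (φ.symm j).2 m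
      obtain ⟨x, hx1, hx2⟩ := (hm.and h1).exists
      exact hx2 hx1
    simp only [s]
    rw [dif_neg hno]
    congr 1
    have : (⟨Quotient.mk S (φ.symm j).1.out, hmv _ hno⟩ : Mv) = φ.symm j :=
      Subtype.ext (Quotient.out_eq _)
    rw [this]
    simp
  · have hall : ∀ k, ∀ᶠ x in (𝒰 : Filter X),
        f x k = (Sum.elim (fun j => f x (φ.symm j).1.out) id ∘ s) k := by
      intro k
      by_cases h : ∃ m : N, ∀ᶠ x in (𝒰 : Filter X), f x k = m
      · filter_upwards [h.choose_spec] with x hx
        simp only [s, comp_apply]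
        rw [dif_pos h]
        simpa using hx
      · filter_upwards [hout k] with x hx
        simp only [s, comp_apply]
        rw [dif_neg h]
        simp [hx]
    have := (eventually_all (l := (𝒰 : Filter X))).2 hall
    exact this.mono fun x hx => funext hx
  · have hall : ∀ j j' : Fin e, j ≠ j' → ∀ᶠ x in (𝒰 : Filter X),
        f x (φ.symm j).1.out ≠ f x (φ.symm j').1.out := by
      intro j j' hjj
      apply hE
      intro hEE
      apply hjj
      have h1 : (φ.symm j).1 = (φ.symm j').1 := by
        rw [← Quotient.out_eq (φ.symm j).1, ← Quotient.out_eq (φ.symm j').1]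
        exact Quotient.sound hEE
      have h2 : φ.symm j = φ.symm j' := Subtype.ext h1
      exact φ.symm.injective h2
    have h3 := (eventually_all (l := (𝒰 : Filter X))).2 fun j =>
      (eventually_all (l := (𝒰 : Filter X))).2 fun j' =>
        (eventually_imp_distrib_left (p := j ≠ j')).2 (hall j j')
    refine h3.mono fun x hx j j' hj => ?_
    by_contra hne
    exact hx j j' hne hj
  · intro m
    exact (eventually_all (l := (𝒰 : Filter X))).2 fun j => (φ.symm j).2 m

end Pool.Agent.Run7.h24.P6
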