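import Pool.Agent.Run7.h46.S.Defs2
import Pool.Agent.Run7.h24.h46_P6

/-! Piece P8 of the project MP_9a84bf_lc (helper46). -/

namespace Pool.Agent.Run7.h24.P8

open Filter Function Run7.h46 Run7.h46.S

variable {L : FirstOrder.Language.{0, 0}} {N T T' : Type}

/-- conditions -/
abbrev Cond (L : FirstOrder.Language.{0, 0}) (X : Type) : Type :=
  Σ R : (Σ n, L.Relations n), (Fin R.1 → X)

/-- patterns -/
abbrev Pat (L : FirstOrder.Language.{0, 0}) (T : Type) : Type :=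
  Σ R : (Σ n, L.Relations n), (Fin R.1 → Option T)

/-- join a tuple and parameters along a pattern -/
def join {r : ℕ} (s : Fin r → Option T) (w : T → N) (y : ℕ → N) : Fin r → N :=
  fun k => (s k).elim (y k) w

/-- pattern of a condition -/
def pat (c : Cond L (T ⊕ ℕ)) : Pat L T :=
  ⟨c.1, fun k => Sum.elim some (fun _ => none) (c.2 k)⟩

/-- parameters of a condition -/
def par (c : Cond L (T ⊕ ℕ)) : ℕ → ℕ :=
  fun k => if h : k < c.1.1 then Sum.elim (fun _ => 0) id (c.2 ⟨k, h⟩) else 0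

theorem join_pat (B : Str L ℕ) (c : Cond L (T ⊕ ℕ)) (w : T → ℕ) :
    (B c.1 (Sum.elim w id ∘ c.2) ↔ B (pat c).1 (join (pat c).2 w (par c))) := by
  have : Sum.elim w id ∘ c.2 = join (pat c).2 w (par c) := by
    funext k
    simp only [join, pat, par, comp_apply]
    rw [dif_pos k.2]
    rcases c.2 k with x | y <;> simp
  rw [this]
  rfl

/-- the parameters of a condition avoid the tuple `w` -/
def Avoid (c : Cond L (T ⊕ ℕ)) (w : T → ℕ) : Prop := ∀ k n, c.2 k = Sum.inr n → ∀ x, w x ≠ n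

theorem avoid_pat (c : Cond L (T ⊕ ℕ)) (w : T → ℕ) (h : Avoid c w) :
    ∀ k, (pat c).2 k = none → ∀ x, w x ≠ par c k := by
  intro k hk x
  rcases hc : c.2 k with y | m
  · simp [pat, hc] at hk
  · have h1 : par c k = m := by
      have h2 : (k : ℕ) < c.1.1 := k.2
      simp only [par]
      rw [dif_pos h2]
      have h3 : (⟨(k : ℕ), h2⟩ : Fin c.1.1) = k := rfl
      rw [h3, hc]
      rfl
    rw [h1]
    exact h k m hc x

theorem mix_image {f : T' → T} (hf : Injective f) (C : Set T') (w v : T → N) :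
    mix (f '' C) w v ∘ f = mix C (w ∘ f) (v ∘ f) := by
  funext x
  by_cases hx : x ∈ C
  · have : f x ∈ f '' C := ⟨x, hx, rfl⟩
    simp only [mix, comp_apply, this, hx, if_true]
  · have : f x ∉ f '' C := by
      rintro ⟨y, hy, hxy⟩
      exact hx (hf hxy ▸ hy)
    simp only [mix, comp_apply, this, hx, if_false]

theorem rel_mixU {f : T' → T} (hf : Injective f) (C : Set T') (𝒰 𝒱 : Ultrafilter (T → N)) :
    rel f (mixU (f '' C) 𝒰 𝒱) = mixU C (rel f 𝒰) (rel f 𝒱) := by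
  apply ext_mixU
  intro P
  change (∀ᶠ w in (𝒰 : Filter (T → N)), ∀ᶠ v in (𝒱 : Filter (T → N)), P (mix (f '' C) w v ∘ f)) ↔
    (∀ᶠ w in (𝒰 : Filter (T → N)), ∀ᶠ v in (𝒱 : Filter (T → N)), P (mix C (w ∘ f) (v ∘ f)))
  simp only [mix_image hf]

theorem agreeOn_rel {A : Str L N} {f : T' → T} (D : Set T') (𝒰 𝒱 : Ultrafilter (T → N)) :
    AgreeOn A D (rel f 𝒰) (rel f 𝒱) ↔ AgreeOn A (f '' D) 𝒰 𝒱 := by
  constructor
  · intro h R t ht
    have h1 : ∀ k, ∃ y : T' ⊕ N, Sum.map f id y = t k ∧ ∀ x, y = Sum.inl x → x ∈ D := by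
      intro k
      rcases hk : t k with x | m
      · obtain ⟨y, hy, rfl⟩ := ht k x hk
        exact ⟨Sum.inl y, rfl, fun x hx => Sum.inl.inj hx ▸ hy⟩
      · exact ⟨Sum.inr m, rfl, fun x hx => by simp at hx⟩
    choose t' ht' hD using h1
    have h2 : t = Sum.map f id ∘ t' := funext fun k => (ht' k).symm
    have h3 := h R t' (fun k x hk => hD k x hk)
    rw [ty_rel, ty_rel, ← h2] at h3
    exact h3
  · intro h R t ht
    rw [ty_rel, ty_rel]
    apply h
    intro k x hx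
    simp only [comp_apply] at hx
    rcases hk : t k with y | m
    · rw [hk] at hx
      simp only [Sum.map_inl, Sum.inl.injEq] at hx
      exact ⟨y, ht k y hk, hx⟩
    · rw [hk] at hx
      simp at hx

theorem splitOn_rel {A : Str L N} {f : T' → T} (hf : Injective f) (D C : Set T')
    (𝒰 : Ultrafilter (T → N)) : SplitOn A (rel f 𝒰) D C ↔ SplitOn A 𝒰 (f '' D) (f '' C) := by
  unfold SplitOn
  rw [← rel_mixU hf, agreeOn_rel]

theorem connOn_rel {A : Str L N} {f : T' → T} (hf : Injective f) (D : Set T')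
    (𝒰 : Ultrafilter (T → N)) : ConnOn A (rel f 𝒰) D ↔ ConnOn A 𝒰 (f '' D) := by
  constructor
  · intro h C hC hs
    obtain ⟨C', hC', rfl⟩ := Set.subset_image_iff.1 hC
    rcases h C' hC' ((splitOn_rel hf D C' 𝒰).2 hs) with h1 | h1
    · left; rw [h1, Set.image_empty]
    · right; rw [h1]
  · intro h C hC hs
    rcases h (f '' C) (Set.image_mono hC) ((splitOn_rel hf D C 𝒰).1 hs) with h1 | h1
    · left; exact Set.image_eq_empty.1 h1
    · right; exact hf.image_injective h1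

/-- an ultrafilter limit of iffs -/
theorem uf_iff {Z : Type*} (𝒰 : Ultrafilter Z) {P Q : Z → Prop}
    (h : (∀ᶠ z in (𝒰 : Filter Z), P z) ↔ ∀ᶠ z in (𝒰 : Filter Z), Q z) :
    ∀ᶠ z in (𝒰 : Filter Z), (P z ↔ Q z) := by
  by_cases hP : ∀ᶠ z in (𝒰 : Filter Z), P z
  · exact (hP.and (h.1 hP)).mono fun z hz => ⟨fun _ => hz.2, fun _ => hz.1⟩
  · have hQ : ¬ ∀ᶠ z in (𝒰 : Filter Z), Q z := fun h1 => hP (h.2 h1)
    exact ((Ultrafilter.eventually_not.2 hP).and (Ultrafilter.eventually_not.2 hQ)).mono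
      fun z hz => ⟨fun h1 => absurd h1 hz.1, fun h1 => absurd h1 hz.2⟩

theorem uf_iff' {Z : Type*} (𝒰 : Ultrafilter Z) {P Q : Z → Prop}
    (h : ∀ᶠ z in (𝒰 : Filter Z), (P z ↔ Q z)) :
    (∀ᶠ z in (𝒰 : Filter Z), P z) ↔ ∀ᶠ z in (𝒰 : Filter Z), Q z :=
  eventually_congr h

/-- If the tuple is eventually not free, one can add coordinates that depend on it. -/
theorem extend [Finite L.Symbols] [Finite T] {A : Str L ℕ} {n : ℕ} (hA : Stab A n)
    {𝒰 : Ultrafilter (T → ℕ)} (hU : Fr 𝒰)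
    (h : ∀ᶠ w in (𝒰 : Filter (T → ℕ)), ¬ FreeAt A 𝒰 w) :
    ∃ (e : ℕ) (𝒰' : Ultrafilter (T ⊕ Fin e → ℕ)), Fr 𝒰' ∧ rel Sum.inl 𝒰' = 𝒰 ∧
      ¬ SplitOn A 𝒰' Set.univ (Set.range Sum.inl) := by
  classical
  have hfinR : Finite (Σ n, L.Relations n) :=
    Finite.of_injective (fun R => (Sum.inr R : L.Symbols)) Sum.inr_injective
  have h1 : ∀ᶠ w in (𝒰 : Filter (T → ℕ)), ∃ c : Cond L (T ⊕ ℕ), Avoid c w ∧
      ¬ (A c.1 (Sum.elim w id ∘ c.2) ↔ ty A 𝒰 c.1 c.2) := by
    filter_upwards [h] with w hw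
    unfold FreeAt at hw
    push Not at hw
    obtain ⟨R, t, h2, h3⟩ := hw
    refine ⟨⟨R, t⟩, h2, ?_⟩
    rcases h3 with h3 | h3
    · exact fun h4 => h3.2 (h4.1 h3.1)
    · exact fun h4 => h3.1 (h4.2 h3.2)
  obtain ⟨f, hf⟩ := h1.choice
  -- constant pattern
  obtain ⟨⟨R, s⟩, hπ⟩ : ∃ π : Pat L T, ∀ᶠ w in (𝒰 : Filter (T → ℕ)), pat (f w) = π :=
    (Ultrafilter.eventually_exists_iff).1 (Eventually.of_forall fun w => ⟨_, rfl⟩)
  let y : (T → ℕ) → ℕ → ℕ := fun w => par (f w)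
  have hnf : ∀ᶠ w in (𝒰 : Filter (T → ℕ)), ¬ (A R (join s w (y w)) ↔
      ∀ᶠ w' in (𝒰 : Filter (T → ℕ)), A R (join s w' (y w))) := by
    filter_upwards [hf, hπ] with w h2 h3
    intro h4
    apply h2.2
    have h5 : ∀ w' : T → ℕ, (A (f w).1 (Sum.elim w' id ∘ (f w).2) ↔ A R (join s w' (y w))) := by
      intro w'
      have := join_pat A (f w) w'
      rw [h3] at this
      exact this
    rw [h5 w, h4, ty_apply]
    exact eventually_congr (Eventually.of_forall fun w' => (h5 w').symm)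
  have hav : ∀ᶠ w in (𝒰 : Filter (T → ℕ)), ∀ k : Fin R.1, s k = none → ∀ x, w x ≠ y w k := by
    filter_upwards [hf, hπ] with w h2 h3
    have := avoid_pat (f w) w h2.1
    rw [h3] at this
    exact this
  -- moving parameters
  let F : (T → ℕ) → Fin R.1 → ℕ := fun w k => if s k = none then y w k else 0
  obtain ⟨e, s', g, hs', hF, hg, hgm⟩ := P6.main_P6 (T → ℕ) ℕ 𝒰 R.1 F
  let 𝒰' : Ultrafilter (T ⊕ Fin e → ℕ) := 𝒰.map (fun w => Sum.elim w (g w))
  have hev : ∀ P : (T ⊕ Fin e → ℕ) → Prop, (∀ᶠ u in (𝒰' : Filter (T ⊕ Fin e → ℕ)), P u) ↔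
      ∀ᶠ w in (𝒰 : Filter (T → ℕ)), P (Sum.elim w (g w)) := fun P => Iff.rfl
  -- a moving position is a parameter position
  have hpos : ∀ k j, s' k = Sum.inl j → s k = none := by
    intro k j hk
    by_contra hne
    obtain ⟨w, h2, h3⟩ := (hF.and (hgm 0)).exists
    have h4 : F w k = g w j := by
      rw [h2]; simp [hk]
    have h5 : F w k = 0 := by simp only [F, if_neg hne]
    exact h3 j (h4.symm.trans h5)
  have hFr : Fr 𝒰' := by
    constructor
    · rw [hev]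
      filter_upwards [hU.1, hg, hav, hF] with w h2 h3 h4 h5
      rintro (x | j) (x' | j') hxy
      · exact congrArg Sum.inl (h2 hxy)
      · exfalso
        obtain ⟨k, hk⟩ := hs' j'
        have h6 : F w k = g w j' := by rw [h5]; simp [hk]
        have h7 : F w k = y w k := by simp only [F, if_pos (hpos k j' hk)]
        exact h4 k (hpos k j' hk) x (hxy.trans (h6.symm.trans h7))
      · exfalso
        obtain ⟨k, hk⟩ := hs' j
        have h6 : F w k = g w j := by rw [h5]; simp [hk]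
        have h7 : F w k = y w k := by simp only [F, if_pos (hpos k j hk)]
        exact h4 k (hpos k j hk) x' (hxy.symm.trans (h6.symm.trans h7))
      · exact congrArg Sum.inr (h3 hxy)
    · intro m
      rw [hev]
      filter_upwards [hU.2 m, hgm m] with w h2 h3
      rintro (x | j)
      · exact h2 x
      · exact h3 j
  refine ⟨e, 𝒰', hFr, ?_, ?_⟩
  · apply ext_mixU
    intro P
    exact Iff.rfl
  · intro hsplit
    let t' : Fin R.1 → (T ⊕ Fin e) ⊕ ℕ := fun k =>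
      (s k).elim (Sum.elim (fun j => Sum.inl (Sum.inr j)) Sum.inr (s' k))
        (fun x => Sum.inl (Sum.inl x))
    have hkey : ∀ w w' : T → ℕ, F w = Sum.elim (g w) id ∘ s' →
        Sum.elim (Sum.elim w' (g w)) id ∘ t' = join s w' (y w) := by
      intro w w' h2
      funext k
      simp only [comp_apply, t', join]
      rcases hk : s k with _ | x
      · have h3 : F w k = y w k := by simp only [F, if_pos hk]
        have h4 : F w k = Sum.elim (g w) id (s' k) := by rw [h2]; rfl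
        simp only [Option.elim_none]
        rw [← h3, h4]
        rcases s' k with j | m <;> simp
      · simp
    have h2 := hsplit R t' (fun _ _ _ => Set.mem_univ _)
    rw [ty_mixU_swap hA, ty_apply, hev, hev] at h2
    have h3 : (∀ᶠ w in (𝒰 : Filter (T → ℕ)), A R (join s w (y w))) ↔
        ∀ᶠ w in (𝒰 : Filter (T → ℕ)), ∀ᶠ w' in (𝒰 : Filter (T → ℕ)), A R (join s w' (y w)) := by
      refine Iff.trans (eventually_congr ?_) (h2.trans (eventually_congr ?_))
      · filter_upwards [hF] with w h4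
        rw [hkey w w h4]
      · filter_upwards [hF] with w h4
        rw [hev]
        refine eventually_congr (Eventually.of_forall fun w' => ?_)
        have h5 : mix (Set.range Sum.inl) (Sum.elim w' (g w')) (Sum.elim w (g w)) =
            Sum.elim w' (g w) := by
          funext x
          rcases x with x | j
          · simp [mix]
          · simp [mix]
        rw [h5, hkey w w' h4]
    obtain ⟨w, h4, h5⟩ := ((uf_iff 𝒰 h3).and hnf).exists
    exact h5 h4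

theorem main_P8 : StP8 := by
  classical
  intro L _ A n hA K hK
  by_contra hcon
  push Not at hcon
  let Good : ℕ → Prop := fun n => ∃ (k : ℕ) (_ : k ≤ K) (𝒰 : Ultrafilter (Fin k → ℕ))
      (w : Fin k → ℕ), Fr 𝒰 ∧ ConnOn A 𝒰 Set.univ ∧ Injective w ∧ FreeAt A 𝒰 w ∧
        n ∈ Set.range w
  let Z : Set ℕ := {n | ¬ Good n}
  have hZ : Z.Infinite := by
    intro hfin
    obtain ⟨m, hm1, hm2⟩ := hcon hfin.toFinset
    apply hm1
    rw [Set.Finite.mem_toFinset]
    rintro ⟨k, hk, 𝒰, w, a1, a2, a3, a4, a5⟩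
    exact hm2 k hk 𝒰 w a1 a2 a3 a4 a5
  have hZi : Infinite Z := hZ.to_subtype
  let 𝒰₀ : Ultrafilter ℕ := (hyperfilter Z).map Subtype.val
  have h𝒰₀Z : ∀ᶠ n in (𝒰₀ : Filter ℕ), n ∈ Z := by
    change ∀ᶠ z : Z in ((hyperfilter Z : Ultrafilter Z) : Filter Z), (z : ℕ) ∈ Z
    exact Eventually.of_forall fun z => z.2
  have h𝒰₀n : ∀ m, ∀ᶠ n in (𝒰₀ : Filter ℕ), n ≠ m := by
    intro m
    change ∀ᶠ z : Z in ((hyperfilter Z : Ultrafilter Z) : Filter Z), (z : ℕ) ≠ m
    have h1 : {z : Z | (z : ℕ) = m}.Finite :=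
      Set.Subsingleton.finite fun a ha b hb => Subtype.ext (ha.trans hb.symm)
    have h2 : {z : Z | (z : ℕ) = m}ᶜ ∈ (hyperfilter Z : Filter Z) := h1.compl_mem_hyperfilter
    exact h2
  let P : ℕ → Prop := fun k => ∃ 𝒰 : Ultrafilter (Fin (k + 1) → ℕ), Fr 𝒰 ∧
    ConnOn A 𝒰 Set.univ ∧ ∀ᶠ w in (𝒰 : Filter (Fin (k + 1) → ℕ)), w 0 ∈ Z
  have hP0 : P 0 := by
    refine ⟨𝒰₀.map (fun n _ => n), ⟨?_, ?_⟩, ?_, ?_⟩
    · change ∀ᶠ n in (𝒰₀ : Filter ℕ), Injective (fun _ : Fin (0 + 1) => n)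
      exact Eventually.of_forall fun n x x' _ => Fin.ext (by omega)
    · intro m
      change ∀ᶠ n in (𝒰₀ : Filter ℕ), ∀ x : Fin (0 + 1), n ≠ m
      exact (h𝒰₀n m).mono fun n hn _ => hn
    · have : (Set.univ : Set (Fin (0 + 1))) = {0} := by
        ext x
        have : x = 0 := Fin.ext (by simp)
        simp [this]
      rw [this]
      exact conn_singleton 0
    · exact h𝒰₀Z
  have hPK : ∀ k, P k → k ≤ K := by
    rintro k ⟨𝒰, h1, h2, -⟩
    have := hK (k + 1) 𝒰 h1 h2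
    omega
  obtain ⟨k, hk, hmax⟩ : ∃ k, P k ∧ ∀ k', P k' → k' ≤ k :=
    ⟨Nat.findGreatest P K, Nat.findGreatest_spec (Nat.zero_le _) hP0,
      fun k' hk' => Nat.le_findGreatest (hPK k' hk') hk'⟩
  obtain ⟨𝒰, hU, hc, hw⟩ := hk
  have hnf : ∀ᶠ w in (𝒰 : Filter (Fin (k + 1) → ℕ)), ¬ FreeAt A 𝒰 w := by
    filter_upwards [hw, hU.1] with w h1 h2 h3
    exact h1 ⟨k + 1, hK (k + 1) 𝒰 hU hc, 𝒰, w, hU, hc, h2, h3, 0, rfl⟩
  obtain ⟨e, 𝒰', hU', hrel, hns⟩ := extend hA hU hnf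
  have hc' : ConnOn A 𝒰' (Set.range (Sum.inl : Fin (k + 1) → Fin (k + 1) ⊕ Fin e)) := by
    rw [← Set.image_univ, ← connOn_rel Sum.inl_injective, hrel]
    exact hc
  obtain ⟨C₀, h1, -, h3, h4⟩ := exists_comp hA (Set.subset_univ _) hc'
  have hne : C₀ ≠ Set.range Sum.inl := fun h => hns (h ▸ h3)
  have hcard : k + 1 < C₀.ncard := by
    have h5 : (Set.range (Sum.inl : Fin (k + 1) → Fin (k + 1) ⊕ Fin e)).ncard = k + 1 := by
      rw [← Set.image_univ, Set.ncard_image_of_injective _ Sum.inl_injective, Set.ncard_univ,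
        Nat.card_eq_fintype_card, Fintype.card_fin]
    have h6 := Set.ncard_lt_ncard (lt_of_le_of_ne h1 (Ne.symm hne)) (Set.toFinite _)
    omega
  obtain ⟨k', hk'⟩ : ∃ k', C₀.ncard = k' + 1 := ⟨C₀.ncard - 1, by omega⟩
  -- enumerate the component, starting with `inl 0`
  obtain ⟨φ, hφi, hφr, hφ0⟩ : ∃ φ : Fin (k' + 1) → Fin (k + 1) ⊕ Fin e, Injective φ ∧
      Set.range φ = C₀ ∧ φ 0 = Sum.inl 0 := by
    have hC₀f : Finite C₀ := Set.toFinite C₀
    have h5 : Nat.card C₀ = k' + 1 := hk'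
    let ψ : Fin (k' + 1) ≃ C₀ := (Finite.equivFinOfCardEq h5).symm
    have h0 : (Sum.inl 0 : Fin (k + 1) ⊕ Fin e) ∈ C₀ := h1 ⟨0, rfl⟩
    let σ : Equiv.Perm (Fin (k' + 1)) := Equiv.swap 0 (ψ.symm ⟨_, h0⟩)
    refine ⟨fun i => (ψ (σ i) : Fin (k + 1) ⊕ Fin e), ?_, ?_, ?_⟩
    · intro i j hij
      exact σ.injective (ψ.injective (Subtype.ext hij))
    · ext x
      constructor
      · rintro ⟨i, rfl⟩
        exact (ψ (σ i)).2
      · intro hx
        exact ⟨σ.symm (ψ.symm ⟨x, hx⟩), by simp⟩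
    · simp [σ]
  have hP' : P k' := by
    refine ⟨rel φ 𝒰', hU'.rel hφi, ?_, ?_⟩
    · rw [connOn_rel hφi, Set.image_univ, hφr]
      exact h4
    · change ∀ᶠ u in (𝒰' : Filter (Fin (k + 1) ⊕ Fin e → ℕ)), u (φ 0) ∈ Z
      rw [hφ0]
      have h5 : ∀ᶠ w in ((rel Sum.inl 𝒰' : Ultrafilter (Fin (k + 1) → ℕ)) :
          Filter (Fin (k + 1) → ℕ)), w 0 ∈ Z := by rw [hrel]; exact hw
      exact h5
  have := hmax k' hP'
  omega

end Pool.Agent.Run7.h24.P8
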