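import Pool.Agent.Run7.h46.S.Defs2
import Pool.Agent.Run7.h24.h46_P6
import Pool.Agent.Run7.h24.h46_P8

/-! Piece P9 of the project MP_9a84bf_lc (helper46). -/

namespace Pool.Agent.Run7.h24.P9

open Filter Function Run7.h46 Run7.h46.S

variable {L : FirstOrder.Language.{0, 0}} {Y : Type}

/-- coordinates of a leaf -/
abbrev leaf (m k : ℕ) (Y : Type) (j : Fin k) : Y → Fin m ⊕ (Fin k × Y) := fun y => Sum.inr (j, y)

theorem build {A : Str L ℕ} {Z : Type} (ℱ : Ultrafilter Z) {k m m' : ℕ}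
    (𝒰 : Z → Ultrafilter (Fin m ⊕ (Fin k × Y) → ℕ)) {R : Σ n, L.Relations n}
    (zq : Z → Fin R.1 → ℕ) (p : Str L (Y ⊕ ℕ))
    (Ψ : Z → (Fin m ⊕ (Fin k × Y) → ℕ) → (Fin m' ⊕ (Fin k × Y) → ℕ))
    (s : Fin R.1 → (Fin m ⊕ Y) ⊕ Unit) (s' : Fin R.1 → (Fin m' ⊕ Y) ⊕ Unit) (z₀ : Fin R.1 → ℕ)
    (hleaf : ∀ᶠ q in (ℱ : Filter Z), ∀ j, ty A (rel (leaf m k Y j) (𝒰 q)) = p)
    (hatt : ∀ᶠ q in (ℱ : Filter Z), ∀ j, ¬ (ty A (𝒰 q) R (pt s j (zq q)) ↔
        ∀ᶠ w in (𝒰 q : Filter (Fin m ⊕ (Fin k × Y) → ℕ)), p R (ps s w (zq q))))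
    (hΨ : ∀ q w j y, Ψ q w (Sum.inr (j, y)) = w (Sum.inr (j, y)))
    (hΨ1 : ∀ᶠ q in (ℱ : Filter Z), ∀ w j, Sum.elim (Ψ q w) id ∘ pt s' j z₀ =
      Sum.elim w id ∘ pt s j (zq q))
    (hΨ2 : ∀ᶠ q in (ℱ : Filter Z), ∀ w, ps s' (Ψ q w) z₀ = ps s w (zq q)) :
    (∀ j, ty A (rel (leaf m' k Y j) (ℱ.bind fun q => (𝒰 q).map (Ψ q))) = p) ∧
    ∀ j, ¬ (ty A (ℱ.bind fun q => (𝒰 q).map (Ψ q)) R (pt s' j z₀) ↔
        ∀ᶠ w in ((ℱ.bind fun q => (𝒰 q).map (Ψ q) :
          Ultrafilter (Fin m' ⊕ (Fin k × Y) → ℕ)) : Filter (Fin m' ⊕ (Fin k × Y) → ℕ)),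
            p R (ps s' w z₀)) := by
  constructor
  · intro j
    funext R' t
    rw [eq_iff_iff]
    change (∀ᶠ q in (ℱ : Filter Z), ∀ᶠ w in (𝒰 q : Filter (Fin m ⊕ (Fin k × Y) → ℕ)),
      A R' (Sum.elim (Ψ q w ∘ leaf m' k Y j) id ∘ t)) ↔ _
    have h1 : ∀ᶠ q in (ℱ : Filter Z), ((∀ᶠ w in (𝒰 q : Filter (Fin m ⊕ (Fin k × Y) → ℕ)),
      A R' (Sum.elim (Ψ q w ∘ leaf m' k Y j) id ∘ t)) ↔ p R' t) := by
      filter_upwards [hleaf] with q hq
      have h2 : ∀ w, Ψ q w ∘ leaf m' k Y j = w ∘ leaf m k Y j := by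
        intro w
        funext y
        exact hΨ q w j y
      simp only [h2]
      rw [← hq j]
      rfl
    rw [eventually_congr h1, eventually_const]
  · intro j hcon
    have hcon' : (∀ᶠ q in (ℱ : Filter Z), ∀ᶠ w in (𝒰 q : Filter (Fin m ⊕ (Fin k × Y) → ℕ)),
          A R (Sum.elim (Ψ q w) id ∘ pt s' j z₀)) ↔
        ∀ᶠ q in (ℱ : Filter Z), ∀ᶠ w in (𝒰 q : Filter (Fin m ⊕ (Fin k × Y) → ℕ)),
          p R (ps s' (Ψ q w) z₀) := hcon
    have h1 : (∀ᶠ q in (ℱ : Filter Z), ty A (𝒰 q) R (pt s j (zq q))) ↔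
        ∀ᶠ q in (ℱ : Filter Z), ∀ᶠ w in (𝒰 q : Filter (Fin m ⊕ (Fin k × Y) → ℕ)),
          p R (ps s w (zq q)) := by
      refine Iff.trans (eventually_congr ?_) (hcon'.trans (eventually_congr ?_))
      · filter_upwards [hΨ1] with q hq
        rw [ty_apply]
        refine eventually_congr (Eventually.of_forall fun w => ?_)
        rw [hq w j]
      · filter_upwards [hΨ2] with q hq
        refine eventually_congr (Eventually.of_forall fun w => ?_)
        rw [hq w]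
    obtain ⟨q, h2, h3⟩ := ((P8.uf_iff ℱ h1).and hatt).exists
    exact h3 j h2

theorem main_P9 : StP9 := by
  classical
  intro L _ A n hA Y _ QY hfin hQY k m R s hs hmax ℱ hℱ
  -- choose data
  have h1 : ∀ᶠ q in (ℱ : Filter (Str L ((Fin m ⊕ (Fin k × Y)) ⊕ ℕ))),
      ∃ d : Ultrafilter (Fin m ⊕ (Fin k × Y) → ℕ) × QY A × (Fin R.1 → ℕ),
        Fr d.1 ∧ ty A d.1 = q ∧ (∀ j, ty A (rel (leaf m k Y j) d.1) = d.2.1) ∧
        ∀ j, ¬ (ty A d.1 R (pt s j d.2.2) ↔
          ∀ᶠ w in (d.1 : Filter (Fin m ⊕ (Fin k × Y) → ℕ)), (d.2.1 : Str L (Y ⊕ ℕ)) R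
            (ps s w d.2.2)) := by
    filter_upwards [hℱ] with q hq
    obtain ⟨𝒰, h2, h3, p, hp, h4, z, h5⟩ := hq
    exact ⟨⟨𝒰, ⟨p, hp⟩, z⟩, h2, h3, h4, h5⟩
  obtain ⟨f, hf⟩ := h1.choice
  have hQf : Finite (QY A) := hfin
  obtain ⟨p, hp⟩ : ∃ p : QY A, ∀ᶠ q in (ℱ : Filter (Str L ((Fin m ⊕ (Fin k × Y)) ⊕ ℕ))),
      (f q).2.1 = p :=
    (Ultrafilter.eventually_exists_iff).1 (Eventually.of_forall fun q => ⟨_, rfl⟩)
  let 𝒰 : Str L ((Fin m ⊕ (Fin k × Y)) ⊕ ℕ) → Ultrafilter (Fin m ⊕ (Fin k × Y) → ℕ) :=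
    fun q => (f q).1
  let zq : Str L ((Fin m ⊕ (Fin k × Y)) ⊕ ℕ) → Fin R.1 → ℕ := fun q => (f q).2.2
  have hFr : ∀ᶠ q in (ℱ : Filter (Str L ((Fin m ⊕ (Fin k × Y)) ⊕ ℕ))), Fr (𝒰 q) :=
    hf.mono fun q hq => hq.1
  have hty : ∀ᶠ q in (ℱ : Filter (Str L ((Fin m ⊕ (Fin k × Y)) ⊕ ℕ))), ty A (𝒰 q) = q :=
    hf.mono fun q hq => hq.2.1
  have hleaf : ∀ᶠ q in (ℱ : Filter (Str L ((Fin m ⊕ (Fin k × Y)) ⊕ ℕ))),
      ∀ j, ty A (rel (leaf m k Y j) (𝒰 q)) = p := by
    filter_upwards [hf, hp] with q h2 h3 j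
    rw [← h3]
    exact h2.2.2.1 j
  have hatt : ∀ᶠ q in (ℱ : Filter (Str L ((Fin m ⊕ (Fin k × Y)) ⊕ ℕ))),
      ∀ j, ¬ (ty A (𝒰 q) R (pt s j (zq q)) ↔
        ∀ᶠ w in (𝒰 q : Filter (Fin m ⊕ (Fin k × Y) → ℕ)), (p : Str L (Y ⊕ ℕ)) R
          (ps s w (zq q))) := by
    filter_upwards [hf, hp] with q h2 h3 j
    rw [← h3]
    exact h2.2.2.2 j
  -- the parameters along `ℱ`
  let F : Str L ((Fin m ⊕ (Fin k × Y)) ⊕ ℕ) → Fin R.1 → ℕ := fun q i =>
    if s i = Sum.inr () then zq q i else 0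
  obtain ⟨e, s₁, g, hs₁, hF, hg, hgm⟩ := P6.main_P6 _ ℕ ℱ R.1 F
  have hpos : ∀ i b, s₁ i = Sum.inl b → s i = Sum.inr () := by
    intro i b hi
    by_contra hne
    obtain ⟨q, h2, h3⟩ := (hF.and (hgm 0)).exists
    have h4 : F q i = g q b := by rw [h2]; simp [hi]
    have h5 : F q i = 0 := by simp only [F, if_neg hne]
    exact h3 b (h4.symm.trans h5)
  have hz : ∀ q, F q = Sum.elim (g q) id ∘ s₁ → ∀ i, s i = Sum.inr () →
      zq q i = Sum.elim (g q) id (s₁ i) := by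
    intro q h2 i hi
    have h3 : F q i = zq q i := by simp only [F, if_pos hi]
    rw [← h3, h2]
    rfl
  rcases Nat.eq_zero_or_pos e with rfl | he
  · -- no moving parameter
    let z₀ : Fin R.1 → ℕ := fun i => Sum.elim (fun b => Fin.elim0 b) id (s₁ i)
    have hz₀ : ∀ q, F q = Sum.elim (g q) id ∘ s₁ → ∀ i, s i = Sum.inr () → zq q i = z₀ i := by
      intro q h2 i hi
      rw [hz q h2 i hi]
      rcases h3 : s₁ i with b | c
      · exact Fin.elim0 b
      · simp [z₀, h3]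
    have hb := build (A := A) ℱ 𝒰 zq p (fun _ w => w) s s z₀ hleaf hatt (fun _ _ _ _ => rfl)
      (by
        filter_upwards [hF] with q h2 w j
        congr 1
        funext i
        rcases h3 : s i with (a | y) | u
        · simp [pt, h3]
        · simp [pt, h3]
        · simp [pt, h3, hz₀ q h2 i h3])
      (by
        filter_upwards [hF] with q h2 w
        funext i
        rcases h3 : s i with (a | y) | u
        · simp [ps, h3]
        · simp [ps, h3]
        · simp [ps, h3, hz₀ q h2 i h3])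
    have hmap : (fun q => (𝒰 q).map (fun w => w)) = 𝒰 := by
      funext q
      exact Ultrafilter.map_id (𝒰 q)
    rw [hmap] at hb
    refine ⟨ℱ.bind 𝒰, fr_bind ℱ 𝒰 hFr, ?_, p, p.2, hb.1, z₀, hb.2⟩
    funext R' t
    rw [eq_iff_iff, ty_bind]
    change _ ↔ ∀ᶠ q in (ℱ : Filter (Str L ((Fin m ⊕ (Fin k × Y)) ⊕ ℕ))), q R' t
    refine eventually_congr ?_
    filter_upwards [hty] with q hq
    rw [hq]
  · -- a larger centre
    exfalso
    let s' : Fin R.1 → (Fin (m + e) ⊕ Y) ⊕ Unit := fun i =>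
      match s i with
      | Sum.inl (Sum.inl a) => Sum.inl (Sum.inl (Fin.castAdd e a))
      | Sum.inl (Sum.inr y) => Sum.inl (Sum.inr y)
      | Sum.inr _ => Sum.elim (fun b => Sum.inl (Sum.inl (Fin.natAdd m b))) (fun _ => Sum.inr ())
          (s₁ i)
    let z₀ : Fin R.1 → ℕ := fun i => Sum.elim (fun _ => 0) id (s₁ i)
    let Ψ : Str L ((Fin m ⊕ (Fin k × Y)) ⊕ ℕ) → (Fin m ⊕ (Fin k × Y) → ℕ) →
        (Fin (m + e) ⊕ (Fin k × Y) → ℕ) := fun q w =>
      Sum.elim (Fin.append (fun a => w (Sum.inl a)) (g q)) (fun x => w (Sum.inr x))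
    have hb := build (A := A) ℱ 𝒰 zq p Ψ s s' z₀ hleaf hatt (fun _ _ _ _ => rfl)
      (by
        filter_upwards [hF] with q h2 w j
        funext i
        simp only [comp_apply]
        rcases h3 : s i with (a | y) | u
        · simp [pt, s', h3, Ψ]
        · simp [pt, s', h3, Ψ]
        · rcases h4 : s₁ i with b | c
          · simp [pt, s', h3, h4, Ψ, hz q h2 i h3]
          · simp [pt, s', h3, h4, z₀, hz q h2 i h3])
      (by
        filter_upwards [hF] with q h2 w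
        funext i
        rcases h3 : s i with (a | y) | u
        · simp [ps, s', h3, Ψ]
        · simp [ps, s', h3]
        · rcases h4 : s₁ i with b | c
          · simp [ps, s', h3, h4, Ψ, hz q h2 i h3]
          · simp [ps, s', h3, h4, z₀, hz q h2 i h3])
    have hFr' : Fr (ℱ.bind fun q => (𝒰 q).map (Ψ q)) := by
      constructor
      · change ∀ᶠ q in (ℱ : Filter (Str L ((Fin m ⊕ (Fin k × Y)) ⊕ ℕ))),
          ∀ᶠ w in (𝒰 q : Filter (Fin m ⊕ (Fin k × Y) → ℕ)), Injective (Ψ q w)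
        filter_upwards [hFr, hg] with q h2 h3
        filter_upwards [h2.1, h2.avoid (Set.finite_range (g q))] with w h4 h5
        have hneq : ∀ x b, w x ≠ g q b := fun x b h => h5 x ⟨b, h.symm⟩
        rintro (a | x) (a' | x') hxy
        · congr 1
          revert hxy
          refine Fin.addCases (fun a₁ => ?_) (fun b₁ => ?_) a
          · refine Fin.addCases (fun a₂ => ?_) (fun b₂ => ?_) a'
            · intro hxy
              simp only [Ψ, Sum.elim_inl, Fin.append_left] at hxy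
              rw [Sum.inl.inj (h4 hxy)]
            · intro hxy
              simp only [Ψ, Sum.elim_inl, Fin.append_left, Fin.append_right] at hxy
              exact absurd hxy (hneq _ _)
          · refine Fin.addCases (fun a₂ => ?_) (fun b₂ => ?_) a'
            · intro hxy
              simp only [Ψ, Sum.elim_inl, Fin.append_left, Fin.append_right] at hxy
              exact absurd hxy.symm (hneq _ _)
            · intro hxy
              simp only [Ψ, Sum.elim_inl, Fin.append_right] at hxy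
              rw [h3 hxy]
        · exfalso
          revert hxy
          refine Fin.addCases (fun a₁ => ?_) (fun b₁ => ?_) a
          · intro hxy
            simp only [Ψ, Sum.elim_inl, Sum.elim_inr, Fin.append_left] at hxy
            exact absurd (h4 hxy) (by simp)
          · intro hxy
            simp only [Ψ, Sum.elim_inl, Sum.elim_inr, Fin.append_right] at hxy
            exact hneq _ _ hxy.symm
        · exfalso
          revert hxy
          refine Fin.addCases (fun a₁ => ?_) (fun b₁ => ?_) a'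
          · intro hxy
            simp only [Ψ, Sum.elim_inl, Sum.elim_inr, Fin.append_left] at hxy
            exact absurd (h4 hxy) (by simp)
          · intro hxy
            simp only [Ψ, Sum.elim_inl, Sum.elim_inr, Fin.append_right] at hxy
            exact hneq _ _ hxy
        · have := h4 hxy
          rw [Sum.inr.inj this]
      · intro c
        change ∀ᶠ q in (ℱ : Filter (Str L ((Fin m ⊕ (Fin k × Y)) ⊕ ℕ))),
          ∀ᶠ w in (𝒰 q : Filter (Fin m ⊕ (Fin k × Y) → ℕ)), ∀ x, Ψ q w x ≠ c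
        filter_upwards [hFr, hgm c] with q h2 h3
        filter_upwards [h2.2 c] with w h4
        rintro (a | x)
        · refine Fin.addCases (fun a₁ => ?_) (fun b₁ => ?_) a
          · simp only [Ψ, Sum.elim_inl, Fin.append_left]
            exact h4 _
          · simp only [Ψ, Sum.elim_inl, Fin.append_right]
            exact h3 _
        · exact h4 _
    have hsurj : ∀ a, ∃ i, s' i = Sum.inl (Sum.inl a) := by
      intro a
      refine Fin.addCases (fun a₁ => ?_) (fun b₁ => ?_) a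
      · obtain ⟨i, hi⟩ := hs a₁
        exact ⟨i, by simp [s', hi]⟩
      · obtain ⟨i, hi⟩ := hs₁ b₁
        exact ⟨i, by simp [s', hpos i b₁ hi, hi]⟩
    have hemp := hmax (m + e) R s' (by omega) hsurj
    have hmem : ty A (ℱ.bind fun q => (𝒰 q).map (Ψ q)) ∈ StarZ QY k (m + e) R s' A :=
      ⟨_, hFr', rfl, p, p.2, hb.1, z₀, hb.2⟩
    rw [hemp] at hmem
    exact hmem

end Pool.Agent.Run7.h24.P9
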